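import Mathlib

/-!
# Acyclic graphs have parent functions
-/

set_option autoImplicit false

namespace Pool.Agent.TH644.KK

/-- Every acyclic graph can be rooted: there is a parent function and a rank such that the edges are
exactly the pairs child-parent, and the parent has smaller rank. -/
theorem exists_par {V : Type*} [DecidableEq V] (H : SimpleGraph V) (hH : H.IsAcyclic) :
    ∃ (par : V → Option V) (rk : V → ℕ), (∀ x y, par y = some x → rk x < rk y) ∧
      ∀ x y, H.Adj x y ↔ (par x = some y ∨ par y = some x) := by
  classical
  -- the root of the component of `v`
  let root : V → V := fun v => (H.connectedComponentMk v).out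
  have hroot : ∀ v, H.Reachable v (root v) := by
    intro v
    have : H.connectedComponentMk (root v) = H.connectedComponentMk v :=
      Quot.out_eq (H.connectedComponentMk v)
    exact (SimpleGraph.ConnectedComponent.exact this).symm
  have hroot' : ∀ u v, H.Adj u v → root u = root v := by
    intro u v huv
    have : H.connectedComponentMk u = H.connectedComponentMk v :=
      SimpleGraph.ConnectedComponent.sound huv.reachable
    simp only [root, this]
  have hP : ∀ v, ∃ w : H.Walk v (root v), w.IsPath := by
    intro v
    obtain ⟨w⟩ := hroot v
    exact ⟨w.toPath, w.toPath.2⟩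
  choose P hPp using hP
  have huniq : ∀ (u v : V) (w w' : H.Walk u v), w.IsPath → w'.IsPath → w = w' := by
    intro u v w w' h h'
    have := (hH.subsingleton_path u v).elim ⟨w, h⟩ ⟨w', h'⟩
    exact congrArg Subtype.val this
  let par : V → Option V := fun v => if (P v).Nil then none else some (P v).snd
  have hpar : ∀ x y, par y = some x → ¬ (P y).Nil ∧ (P y).snd = x := by
    intro x y h
    by_cases hn : (P y).Nil
    · simp only [par, if_pos hn] at h
      exact absurd h (by simp)
    · simp only [par, if_neg hn] at h
      exact ⟨hn, Option.some.inj h⟩
  have hadj : ∀ x y, par y = some x → H.Adj y x := by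
    intro x y h
    obtain ⟨hn, rfl⟩ := hpar x y h
    exact SimpleGraph.Walk.adj_snd hn
  refine ⟨par, fun v => (P v).length, ?_, ?_⟩
  · intro x y h
    have ha := hadj x y h
    obtain ⟨hn, hx⟩ := hpar x y h
    subst hx
    have hr := hroot' _ _ ha
    have h1 : ((P y).tail.copy rfl hr).IsPath := by
      rw [SimpleGraph.Walk.isPath_copy]
      exact (hPp y).tail
    have h2 := huniq _ _ _ _ h1 (hPp _)
    have h3 := congrArg SimpleGraph.Walk.length h2
    rw [SimpleGraph.Walk.length_copy] at h3
    have h4 := SimpleGraph.Walk.length_tail_add_one hn
    show (P (P y).snd).length < (P y).length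
    omega
  · intro x y
    constructor
    · intro ha
      have hr := hroot' _ _ ha
      by_cases hy : y ∈ (P x).support
      · left
        have h1 : ((P x).takeUntil y hy).IsPath := (hPp x).takeUntil hy
        have h2 : (SimpleGraph.Walk.cons ha SimpleGraph.Walk.nil).IsPath := by
          rw [SimpleGraph.Walk.cons_isPath_iff]
          refine ⟨SimpleGraph.Walk.IsPath.nil, ?_⟩
          rw [SimpleGraph.Walk.support_nil, List.mem_singleton]
          exact ha.ne
        have h3 := huniq _ _ _ _ h1 h2
        have h4 := SimpleGraph.Walk.take_spec (P x) hy
        rw [h3] at h4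
        have hn : ¬ (P x).Nil := by
          rw [← h4]
          simp
        have hs : (P x).snd = y := by
          rw [← h4]
          simp
        show (if (P x).Nil then none else some (P x).snd) = some y
        rw [if_neg hn, hs]
      · right
        have h1 : ((SimpleGraph.Walk.cons ha.symm (P x)).copy rfl hr).IsPath := by
          rw [SimpleGraph.Walk.isPath_copy, SimpleGraph.Walk.cons_isPath_iff]
          exact ⟨hPp x, hy⟩
        have h2 := huniq _ _ _ _ (hPp y) h1
        show (if (P y).Nil then none else some (P y).snd) = some x
        have hn : ¬ (P y).Nil := by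
          intro hnil
          have h5 := SimpleGraph.Walk.length_eq_zero_iff.mpr hnil
          rw [h2, SimpleGraph.Walk.length_copy, SimpleGraph.Walk.length_cons] at h5
          omega
        have hs : (P y).snd = x := by
          rw [h2]
          simp [SimpleGraph.Walk.snd]
        rw [if_neg hn, hs]
    · rintro (h | h)
      · exact hadj _ _ h
      · exact (hadj _ _ h).symm

end Pool.Agent.TH644.KK
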