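import Pool.Agent.TH644.KK.Count

/-!
# Rooted forests have many automorphisms

For a rooted forest with `N` vertices and `r` roots, `r! * ∏ (number of children)!` is at most
`4 ^ N` times the number of automorphisms.
-/

set_option autoImplicit false
set_option linter.unusedSectionVars false

open Finset
open scoped Nat

namespace Pool.Agent.TH644.KK

variable {V : Type*}

/-- the labels of a tree, in preorder -/
def lab : BinaryTree V → List V
  | .nil => []
  | .node x a b => x :: (lab a ++ lab b)

/-- the shape of a tree -/
def shape (t : BinaryTree V) : BinaryTree Unit := t.map (fun _ => ())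

/-- `t` represents a part of the forest with parent function `p`; first children on the left, next
siblings on the right, the parent of the first tree being `o` -/
def Rep (p : V → Option V) : BinaryTree V → Option V → Prop
  | .nil, _ => True
  | .node x a b, o => p x = o ∧ Rep p a (some x) ∧ Rep p b o

lemma numNodes_shape (t : BinaryTree V) : (shape t).numNodes = (lab t).length := by
  induction t with
  | nil => rfl
  | node x a b iha ihb =>
    unfold shape at iha ihb ⊢
    simp only [BinaryTree.map, BinaryTree.numNodes, lab, List.length_cons, List.length_append]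
    omega

lemma lab_map {W : Type*} (f : V → W) (t : BinaryTree V) : lab (t.map f) = (lab t).map f := by
  induction t with
  | nil => rfl
  | node x a b iha ihb =>
    simp only [BinaryTree.map, lab, List.map_cons, List.map_append, iha, ihb]

lemma map_congr' {W : Type*} {f g : V → W} {t : BinaryTree V} (h : ∀ z ∈ lab t, f z = g z) :
    t.map f = t.map g := by
  induction t with
  | nil => rfl
  | node x a b iha ihb =>
    simp only [BinaryTree.map]
    rw [h x (by simp [lab]), iha (fun z hz => h z (by simp [lab, hz])),
      ihb (fun z hz => h z (by simp [lab, hz]))]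

lemma exists_map [DecidableEq V] : ∀ (t0 t : BinaryTree V), shape t0 = shape t → (lab t0).Nodup →
    ∃ f : V → V, t0.map f = t := by
  intro t0
  induction t0 with
  | nil =>
    intro t h _
    cases t with
    | nil => exact ⟨id, rfl⟩
    | node x a b => simp [shape, BinaryTree.map] at h
  | node x a b iha ihb =>
    intro t h hnd
    cases t with
    | nil => simp [shape, BinaryTree.map] at h
    | node y c d =>
      simp only [shape, BinaryTree.map, BinaryTree.node.injEq, true_and] at h
      simp only [lab, List.nodup_cons, List.mem_append, not_or] at hnd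
      obtain ⟨hx, hnd⟩ := hnd
      have hnd' := List.nodup_append.mp hnd
      obtain ⟨f, hf⟩ := iha c h.1 hnd'.1
      obtain ⟨g, hg⟩ := ihb d h.2 hnd'.2.1
      refine ⟨fun z => if z = x then y else if z ∈ lab a then f z else g z, ?_⟩
      simp only [BinaryTree.map, if_true]
      congr 1
      · rw [← hf]
        apply map_congr'
        intro z hz
        have : z ≠ x := by rintro rfl; exact hx.1 hz
        simp [this, hz]
      · rw [← hg]
        apply map_congr'
        intro z hz
        have h1 : z ≠ x := by rintro rfl; exact hx.2 hz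
        have h2 : z ∉ lab a := fun h => hnd'.2.2 z h z hz rfl
        simp [h1, h2]

lemma Rep_map {p : V → Option V} {f : V → V} : ∀ (t : BinaryTree V) (o : Option V),
    Rep p t o → Rep p (t.map f) (o.map f) → ∀ z ∈ lab t, p (f z) = (p z).map f := by
  intro t
  induction t with
  | nil => intro o _ _ z hz; simp [lab] at hz
  | node x a b iha ihb =>
    intro o h1 h2 z hz
    simp only [Rep, BinaryTree.map] at h1 h2
    simp only [lab, List.mem_cons, List.mem_append] at hz
    rcases hz with rfl | hz | hz
    · rw [h1.1, h2.1]
    · exact iha (some x) h1.2.1 h2.2.1 z hz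
    · exact ihb o h1.2.2 h2.2.2 z hz

section

variable [Fintype V] [DecidableEq V]

/-- `x` is an ancestor of `z` or equal to it -/
def Anc (p : V → Option V) (x z : V) : Prop := Relation.ReflTransGen (fun a b => p b = some a) x z

/-- the descendants of the elements of `S` -/
noncomputable def desc (p : V → Option V) (S : Finset V) : Finset V :=
  open Classical in univ.filter (fun z => ∃ x ∈ S, Anc p x z)

variable {p : V → Option V}

lemma mem_desc {S : Finset V} {z : V} : z ∈ desc p S ↔ ∃ x ∈ S, Anc p x z := by
  simp [desc]

lemma subset_desc (S : Finset V) : S ⊆ desc p S := fun x hx =>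
  mem_desc.mpr ⟨x, hx, Relation.ReflTransGen.refl⟩

lemma Anc.rk {t : V → ℕ} (ht : ∀ x y, p y = some x → t x < t y) {x z : V} (h : Anc p x z) :
    x = z ∨ t x < t z := by
  induction h with
  | refl => exact Or.inl rfl
  | tail _ h2 ih =>
    rename_i b c _
    have := ht _ _ h2
    rcases ih with rfl | h
    · exact Or.inr this
    · exact Or.inr (h.trans this)

lemma Anc.total {x y z : V} (h : Anc p x z) (h' : Anc p y z) : Anc p x y ∨ Anc p y x := by
  induction h with
  | refl => exact Or.inr h'
  | tail h1 h2 ih =>
    rename_i b c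
    rcases Relation.ReflTransGen.cases_tail h' with h3 | ⟨w, h3, h4⟩
    · subst h3
      exact Or.inl (Relation.ReflTransGen.tail h1 h2)
    · rw [h2] at h4
      have : w = b := (Option.some.inj h4).symm
      subst this
      exact ih h3

/-- two different siblings are not ancestors of each other -/
lemma not_anc_sibling {t : V → ℕ} (ht : ∀ x y, p y = some x → t x < t y) {x y : V}
    (hxy : p x = p y) (hne : x ≠ y) : ¬ Anc p x y := by
  intro h
  rcases Relation.ReflTransGen.cases_tail h with h3 | ⟨w, h3, h4⟩
  · exact hne h3.symm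
  · have h5 : p x = some w := by rw [hxy, h4]
    have h6 := ht _ _ h5
    rcases Anc.rk ht h3 with rfl | h7
    · exact absurd h6 (lt_irrefl _)
    · omega

lemma desc_decomp {t : V → ℕ} (ht : ∀ x y, p y = some x → t x < t y) {S : Finset V} {o : Option V}
    (hS : ∀ x ∈ S, p x = o) {x : V} (hx : x ∈ S) :
    desc p S = insert x (desc p (ch p x) ∪ desc p (S.erase x)) ∧
      x ∉ desc p (ch p x) ∧ x ∉ desc p (S.erase x) ∧
      Disjoint (desc p (ch p x)) (desc p (S.erase x)) := by
  have hx1 : ∀ z ∈ desc p (ch p x), Anc p x z ∧ t x < t z := by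
    intro z hz
    obtain ⟨y, hy, hyz⟩ := mem_desc.mp hz
    have hxy := mem_ch.mp hy
    refine ⟨Relation.ReflTransGen.head hxy hyz, ?_⟩
    have h1 := ht _ _ hxy
    rcases Anc.rk ht hyz with rfl | h2
    · exact h1
    · omega
  refine ⟨?_, ?_, ?_, ?_⟩
  · ext z
    simp only [mem_insert, mem_union]
    constructor
    · intro hz
      obtain ⟨y, hy, hyz⟩ := mem_desc.mp hz
      by_cases hyx : y = x
      · subst hyx
        rcases Relation.ReflTransGen.cases_head hyz with h | ⟨w, h1, h2⟩
        · exact Or.inl h.symm
        · exact Or.inr (Or.inl (mem_desc.mpr ⟨w, mem_ch.mpr h1, h2⟩))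
      · exact Or.inr (Or.inr (mem_desc.mpr ⟨y, mem_erase.mpr ⟨hyx, hy⟩, hyz⟩))
    · rintro (rfl | hz | hz)
      · exact subset_desc S hx
      · exact mem_desc.mpr ⟨x, hx, (hx1 z hz).1⟩
      · obtain ⟨y, hy, hyz⟩ := mem_desc.mp hz
        exact mem_desc.mpr ⟨y, mem_of_mem_erase hy, hyz⟩
  · intro h
    exact absurd (hx1 x h).2 (lt_irrefl _)
  · intro h
    obtain ⟨y, hy, hyx⟩ := mem_desc.mp h
    exact not_anc_sibling ht (by rw [hS y (mem_of_mem_erase hy), hS x hx]) (ne_of_mem_erase hy) hyx
  · rw [disjoint_left]
    intro z hz hz'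
    obtain ⟨y, hy, hyz⟩ := mem_desc.mp hz'
    have h2 : p x = p y := by rw [hS y (mem_of_mem_erase hy), hS x hx]
    rcases Anc.total (hx1 z hz).1 hyz with h | h
    · exact not_anc_sibling ht h2 (ne_of_mem_erase hy).symm h
    · exact not_anc_sibling ht h2.symm (ne_of_mem_erase hy) h

/-- There are many labelled trees representing a forest. -/
lemma exists_trees {t : V → ℕ} (ht : ∀ x y, p y = some x → t x < t y) :
    ∀ (m : ℕ) (S : Finset V) (o : Option V), (∀ x ∈ S, p x = o) → (desc p S).card = m →
      ∃ F : Finset (BinaryTree V),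
        (∀ T ∈ F, Rep p T o ∧ (lab T).Nodup ∧ (lab T).toFinset = desc p S) ∧
        S.card ! * ∏ z ∈ desc p S, (ch p z).card ! ≤ F.card := by
  classical
  intro m
  induction m using Nat.strong_induction_on with
  | _ m ih =>
    intro S o hS hm
    rcases S.eq_empty_or_nonempty with rfl | hne
    · have : desc p (∅ : Finset V) = ∅ := by
        ext z; simp [mem_desc]
      refine ⟨{.nil}, ?_, ?_⟩
      · intro T hT
        rw [mem_singleton] at hT
        subst hT
        simp [Rep, lab, this]
      · simp [this]
    · have key : ∀ x : V, x ∈ S → ∃ AB : Finset (BinaryTree V) × Finset (BinaryTree V),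
          (∀ T ∈ AB.1, Rep p T (some x) ∧ (lab T).Nodup ∧ (lab T).toFinset = desc p (ch p x)) ∧
          (∀ T ∈ AB.2, Rep p T o ∧ (lab T).Nodup ∧ (lab T).toFinset = desc p (S.erase x)) ∧
          (S.card - 1)! * ∏ z ∈ desc p S, (ch p z).card ! ≤ AB.1.card * AB.2.card := by
        intro x hx
        obtain ⟨h1, h2, h3, h4⟩ := desc_decomp ht hS hx
        have hnot : x ∉ desc p (ch p x) ∪ desc p (S.erase x) := by
          rw [mem_union]; tauto
        have hcard : (desc p S).card =
            (desc p (ch p x)).card + (desc p (S.erase x)).card + 1 := by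
          rw [h1, card_insert_of_notMem hnot, card_union_of_disjoint h4]
        obtain ⟨A, hA1, hA2⟩ := ih _ (by omega) (ch p x) (some x)
          (fun y hy => mem_ch.mp hy) rfl
        obtain ⟨B, hB1, hB2⟩ := ih _ (by omega) (S.erase x) o
          (fun y hy => hS y (mem_of_mem_erase hy)) rfl
        refine ⟨(A, B), hA1, hB1, ?_⟩
        rw [h1, prod_insert hnot, prod_union h4]
        rw [card_erase_of_mem hx] at hB2
        calc (S.card - 1)! * ((ch p x).card ! * ((∏ z ∈ desc p (ch p x), (ch p z).card !) *
                ∏ z ∈ desc p (S.erase x), (ch p z).card !))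
            = ((ch p x).card ! * ∏ z ∈ desc p (ch p x), (ch p z).card !) *
              ((S.card - 1)! * ∏ z ∈ desc p (S.erase x), (ch p z).card !) := by ring
          _ ≤ A.card * B.card := Nat.mul_le_mul hA2 hB2
      choose! AB hA hB hAB using key
      refine ⟨S.biUnion (fun x => ((AB x).1 ×ˢ (AB x).2).image
        (fun ab => BinaryTree.node x ab.1 ab.2)), ?_, ?_⟩
      · intro T hT
        simp only [mem_biUnion, mem_image, mem_product] at hT
        obtain ⟨x, hx, ⟨a, b⟩, ⟨ha, hb⟩, rfl⟩ := hT
        obtain ⟨h1, h2, h3, h4⟩ := desc_decomp ht hS hx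
        obtain ⟨a1, a2, a3⟩ := hA x hx a ha
        obtain ⟨b1, b2, b3⟩ := hB x hx b hb
        refine ⟨⟨hS x hx, a1, b1⟩, ?_, ?_⟩
        · simp only [lab, List.nodup_cons, List.mem_append, not_or]
          refine ⟨⟨?_, ?_⟩, ?_⟩
          · rw [← List.mem_toFinset, a3]; exact h2
          · rw [← List.mem_toFinset, b3]; exact h3
          · rw [List.nodup_append]
            refine ⟨a2, b2, ?_⟩
            intro y hy z hz hyz
            subst hyz
            rw [← List.mem_toFinset, a3] at hy
            rw [← List.mem_toFinset, b3] at hz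
            exact disjoint_left.mp h4 hy hz
        · simp only [lab, List.toFinset_cons, List.toFinset_append, a3, b3]
          exact h1.symm
      · rw [card_biUnion]
        · have h5 : ∀ x ∈ S, (((AB x).1 ×ˢ (AB x).2).image
              (fun ab => BinaryTree.node x ab.1 ab.2)).card = (AB x).1.card * (AB x).2.card := by
            intro x _
            rw [card_image_of_injective, card_product]
            rintro ⟨a, b⟩ ⟨c, d⟩ h
            simp only [BinaryTree.node.injEq, true_and] at h
            rw [h.1, h.2]
          rw [sum_congr rfl h5]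
          calc S.card ! * ∏ z ∈ desc p S, (ch p z).card !
              = ∑ x ∈ S, (S.card - 1)! * ∏ z ∈ desc p S, (ch p z).card ! := by
                rw [sum_const, smul_eq_mul, ← mul_assoc,
                  Nat.mul_factorial_pred (card_pos.mpr hne).ne']
            _ ≤ _ := sum_le_sum (fun x hx => hAB x hx)
        · intro x _ y _ hxy
          simp only [Function.onFun]
          rw [disjoint_left]
          intro T hT hT'
          simp only [mem_image] at hT hT'
          obtain ⟨ab, _, rfl⟩ := hT
          obtain ⟨cd, _, h⟩ := hT'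
          simp only [BinaryTree.node.injEq] at h
          exact hxy h.1.symm

lemma catalan_le (n : ℕ) : catalan n ≤ 4 ^ n := by
  refine le_trans ?_ (Nat.centralBinom_le_four_pow n)
  rw [catalan_eq_centralBinom_div]
  exact Nat.div_le_self _ _

/-- Rooted forests have many automorphisms. -/
theorem aut_lower {t : V → ℕ} (ht : ∀ x y, p y = some x → t x < t y) (S : Finset V)
    (hS : ∀ x ∈ S, p x = none) (W : Finset V) (hW : W = desc p S) :
    S.card ! * ∏ z ∈ W, (ch p z).card ! ≤
      4 ^ W.card * Nat.card {σ : Equiv.Perm W // ∀ x y : W,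
        (p x = some (y : V) ∨ p y = some (x : V)) ↔
        (p (σ x) = some (σ y : V) ∨ p (σ y) = some (σ x : V))} := by
  classical
  obtain ⟨F, hF, hcard⟩ := exists_trees ht _ S none hS rfl
  rw [← hW] at hF hcard
  refine le_trans hcard ?_
  -- pigeonhole
  set T := BinaryTree.treesOfNumNodesEq W.card with hT
  have hmaps : ∀ a ∈ F, shape a ∈ T := by
    intro a ha
    rw [hT, BinaryTree.mem_treesOfNumNodesEq, numNodes_shape]
    obtain ⟨_, h2, h3⟩ := hF a ha
    rw [← h3, List.toFinset_card_of_nodup h2]
  have hTcard : T.card ≤ 4 ^ W.card := by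
    rw [hT, BinaryTree.treesOfNumNodesEq_card_eq_catalan]
    exact catalan_le _
  rw [card_eq_sum_card_fiberwise hmaps]
  set A := Nat.card {σ : Equiv.Perm W // ∀ x y : W,
        (p x = some (y : V) ∨ p y = some (x : V)) ↔
        (p (σ x) = some (σ y : V) ∨ p (σ y) = some (σ x : V))} with hA
  have hfib : ∀ s ∈ T, (F.filter (fun a => shape a = s)).card ≤ A := by
    intro s _
    rcases (F.filter (fun a => shape a = s)).eq_empty_or_nonempty with he | ⟨t0, ht0⟩
    · rw [he]; simp
    rw [mem_filter] at ht0
    obtain ⟨r0, nd0, l0⟩ := hF t0 ht0.1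
    have hex : ∀ a ∈ F.filter (fun a => shape a = s), ∃ f : V → V, t0.map f = a := by
      intro a ha
      rw [mem_filter] at ha
      exact exists_map t0 a (by rw [ht0.2, ha.2]) nd0
    have : Nonempty (V → V) := ⟨id⟩
    choose! f hf using hex
    have hmemW : ∀ z : V, z ∈ W ↔ z ∈ lab t0 := by
      intro z
      rw [← l0, List.mem_toFinset]
    have hlab : ∀ a ∈ F.filter (fun a => shape a = s), lab a = (lab t0).map (f a) := by
      intro a ha
      rw [← lab_map, hf a ha]
    have hfW : ∀ a ∈ F.filter (fun a => shape a = s), ∀ z ∈ W, f a z ∈ W := by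
      intro a ha z hz
      obtain ⟨_, _, l1⟩ := hF a (mem_filter.mp ha).1
      rw [← l1, List.mem_toFinset, hlab a ha]
      exact List.mem_map.mpr ⟨z, (hmemW z).mp hz, rfl⟩
    have hinj : ∀ a ∈ F.filter (fun a => shape a = s), Set.InjOn (f a) W := by
      intro a ha y hy z hz hyz
      obtain ⟨_, n1, _⟩ := hF a (mem_filter.mp ha).1
      rw [hlab a ha] at n1
      exact List.inj_on_of_nodup_map n1 ((hmemW y).mp hy) ((hmemW z).mp hz) hyz
    -- the permutation
    have hbij : ∀ a ∈ F.filter (fun a => shape a = s), ∃ σ : Equiv.Perm W,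
        ∀ x : W, ((σ x : W) : V) = f a x := by
      intro a ha
      let g : W → W := fun x => ⟨f a x, hfW a ha x x.2⟩
      have hg : Function.Injective g := by
        intro x y hxy
        apply Subtype.ext
        exact hinj a ha x.2 y.2 (congrArg Subtype.val hxy)
      exact ⟨Equiv.ofBijective g ((Finite.injective_iff_bijective).mp hg), fun x => rfl⟩
    choose! σ hσ using hbij
    have hpar : ∀ a ∈ F.filter (fun a => shape a = s), ∀ z ∈ W, p (f a z) = (p z).map (f a) := by
      intro a ha z hz
      obtain ⟨r1, _, _⟩ := hF a (mem_filter.mp ha).1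
      rw [← hf a ha] at r1
      exact Rep_map t0 none r0 (by simpa using r1) z ((hmemW z).mp hz)
    have hclosed : ∀ z ∈ W, ∀ w, p z = some w → w ∈ W := by
      intro z hz w hw
      rw [hW] at hz ⊢
      obtain ⟨x, hx, hxz⟩ := mem_desc.mp hz
      rcases Relation.ReflTransGen.cases_tail hxz with h3 | ⟨w', h3, h4⟩
      · rw [h3, hS x hx] at hw
        exact absurd hw (by simp)
      · rw [hw] at h4
        rw [Option.some.inj h4]
        exact mem_desc.mpr ⟨x, hx, h3⟩
    have hiff : ∀ a ∈ F.filter (fun a => shape a = s), ∀ x y : W,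
        p x = some (y : V) ↔ p (σ a x) = some (σ a y : V) := by
      intro a ha x y
      rw [hσ a ha x, hσ a ha y, hpar a ha x x.2]
      constructor
      · intro h
        rw [h]; rfl
      · intro h
        obtain ⟨w, hw1, hw2⟩ := Option.map_eq_some_iff.mp h
        rw [hw1]
        exact congrArg some (hinj a ha (hclosed x x.2 w hw1) y.2 hw2)
    have h1 : (F.filter (fun a => shape a = s)).card =
        Nat.card (F.filter (fun a => shape a = s)) := by
      rw [Nat.card_eq_fintype_card, Fintype.card_coe]
    rw [h1, hA]
    apply Nat.card_le_card_of_injective (fun a : F.filter (fun a => shape a = s) =>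
      (⟨σ a, fun x y => by rw [hiff a a.2 x y, hiff a a.2 y x]⟩ : {σ : Equiv.Perm W // ∀ x y : W,
        (p x = some (y : V) ∨ p y = some (x : V)) ↔
        (p (σ x) = some (σ y : V) ∨ p (σ y) = some (σ x : V))}))
    intro a b hab
    have h2 : σ a = σ b := congrArg Subtype.val hab
    apply Subtype.ext
    rw [← hf a a.2, ← hf b b.2]
    apply map_congr'
    intro z hz
    have hzW := (hmemW z).mpr hz
    have h3 := hσ a a.2 ⟨z, hzW⟩
    have h4 := hσ b b.2 ⟨z, hzW⟩
    rw [← h3, ← h4, h2]
  calc ∑ s ∈ T, (F.filter (fun a => shape a = s)).card ≤ ∑ s ∈ T, A := sum_le_sum hfib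
    _ = T.card * A := by rw [sum_const, smul_eq_mul]
    _ ≤ 4 ^ W.card * A := Nat.mul_le_mul_right _ hTcard

end

end Pool.Agent.TH644.KK
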