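import Mathlib

/-!
# Counting the embeddings of a rooted forest into a rooted forest with the help of a potential
-/

set_option autoImplicit false
set_option linter.unusedSectionVars false

open Finset

namespace Pool.Agent.TH644.KK

variable {V U : Type*} [Fintype V] [DecidableEq V] [Fintype U] [DecidableEq U]

/-- the children of `x` -/
def ch (par : V → Option V) (x : V) : Finset V := univ.filter (fun y => par y = some x)

lemma mem_ch {par : V → Option V} {x y : V} : y ∈ ch par x ↔ par y = some x := by
  simp [ch]

/-- the valid maps on `W` -/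
def Val (par : V → Option V) (q : U → Option U) (v0 : V) (W : Finset U) : Finset (U → V) :=
  open Classical in
  univ.filter (fun g => (∀ u ∉ W, g u = v0) ∧ Set.InjOn g W ∧
    ∀ u ∈ W, ∀ w, q u = some w → par (g u) = some (g w))

lemma mem_Val {par : V → Option V} {q : U → Option U} {v0 : V} {W : Finset U} {g : U → V} :
    g ∈ Val par q v0 W ↔ (∀ u ∉ W, g u = v0) ∧ Set.InjOn g W ∧
      ∀ u ∈ W, ∀ w, q u = some w → par (g u) = some (g w) := by
  simp [Val]

/-- the children of `g u` which are not used -/
def Dn (par : V → Option V) (q : U → Option U) (W : Finset U) (g : U → V) (u : U) : Finset V :=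
  ch par (g u) \ (W.filter (fun w => q w = some u)).image g

/-- the weight of a map -/
def wt (par : V → Option V) (q : U → Option U) (Φ : Finset V → ℝ) (W : Finset U) (g : U → V) : ℝ :=
  ∏ u ∈ W, Φ (Dn par q W g u)

section

variable {par : V → Option V} {q : U → Option U} {v0 : V} {Φ : Finset V → ℝ}

lemma Dn_self {W : Finset U} {u : U} (hu : u ∈ W) (hmax : ∀ w ∈ W, q w ≠ some u)
    (g' : U → V) (y : V) : Dn par q W (Function.update g' u y) u = ch par y := by
  unfold Dn
  have : W.filter (fun w => q w = some u) = ∅ := by
    rw [filter_eq_empty_iff]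
    exact fun w hw => hmax w hw
  rw [this]
  simp

lemma Dn_ne {W : Finset U} {u u' : U} (hu' : u' ≠ u) (hq : q u ≠ some u')
    (g' : U → V) (y : V) :
    Dn par q W (Function.update g' u y) u' = Dn par q (W.erase u) g' u' := by
  unfold Dn
  rw [Function.update_of_ne hu']
  congr 1
  have e : W.filter (fun w => q w = some u') = (W.erase u).filter (fun w => q w = some u') := by
    ext w
    simp only [mem_filter, mem_erase]
    constructor
    · rintro ⟨h1, h2⟩
      refine ⟨⟨?_, h1⟩, h2⟩
      rintro rfl
      exact hq h2
    · rintro ⟨⟨_, h1⟩, h2⟩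
      exact ⟨h1, h2⟩
  rw [e]
  apply image_congr
  intro w hw
  have hw' := mem_coe.mp hw
  simp only [mem_filter, mem_erase] at hw'
  exact Function.update_of_ne hw'.1.1 _ _

lemma Dn_par {W : Finset U} {u w : U} (hu : u ∈ W) (hwu : w ≠ u) (hq : q u = some w)
    (g' : U → V) (y : V) :
    Dn par q W (Function.update g' u y) w = (Dn par q (W.erase u) g' w).erase y := by
  unfold Dn
  rw [Function.update_of_ne hwu]
  have e : W.filter (fun z => q z = some w) =
      insert u ((W.erase u).filter (fun z => q z = some w)) := by
    ext z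
    simp only [mem_filter, mem_erase, mem_insert]
    constructor
    · rintro ⟨h1, h2⟩
      by_cases hz : z = u
      · exact Or.inl hz
      · exact Or.inr ⟨⟨hz, h1⟩, h2⟩
    · rintro (rfl | ⟨⟨_, h1⟩, h2⟩)
      · exact ⟨hu, hq⟩
      · exact ⟨h1, h2⟩
  rw [e, image_insert]
  have e2 : ((W.erase u).filter (fun z => q z = some w)).image (Function.update g' u y) =
      ((W.erase u).filter (fun z => q z = some w)).image g' := by
    apply image_congr
    intro z hz
    have hz' := mem_coe.mp hz
    simp only [mem_filter, mem_erase] at hz'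
    exact Function.update_of_ne hz'.1.1 _ _
  rw [e2, Function.update_self]
  ext z
  simp only [mem_sdiff, mem_insert, mem_erase]
  tauto

/-- the sum over the choices of the image of `u` -/
lemma fiber_sum {W : Finset U} {u : U} (hu : u ∈ W) (hΦ : ∀ Y, 0 ≤ Φ Y)
    (g' : U → V) (Y : Finset V) (hY : ∀ g ∈ Val par q v0 W, Function.update g u v0 = g' → g u ∈ Y) :
    ∑ g ∈ (Val par q v0 W).filter (fun g => Function.update g u v0 = g'), wt par q Φ W g ≤
      ∑ y ∈ Y, wt par q Φ W (Function.update g' u y) := by
  have key : ∀ g ∈ (Val par q v0 W).filter (fun g => Function.update g u v0 = g'),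
      Function.update g' u (g u) = g := by
    intro g hg
    rw [mem_filter] at hg
    rw [← hg.2]
    simp
  calc ∑ g ∈ (Val par q v0 W).filter (fun g => Function.update g u v0 = g'), wt par q Φ W g
      = ∑ g ∈ (Val par q v0 W).filter (fun g => Function.update g u v0 = g'),
          wt par q Φ W (Function.update g' u (g u)) := by
        apply sum_congr rfl
        intro g hg
        rw [key g hg]
    _ = ∑ y ∈ ((Val par q v0 W).filter (fun g => Function.update g u v0 = g')).image (fun g => g u),
          wt par q Φ W (Function.update g' u y) := by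
        rw [sum_image]
        intro g hg h hh hgh
        rw [← key g hg, ← key h hh]
        simp only at hgh
        rw [hgh]
    _ ≤ _ := by
        apply sum_le_sum_of_subset_of_nonneg
        · intro y hy
          obtain ⟨g, hg, rfl⟩ := mem_image.mp hy
          rw [mem_filter] at hg
          exact hY g hg.1 hg.2
        · intro y _ _
          exact prod_nonneg (fun _ _ => hΦ _)

lemma Val_update {W : Finset U} {u : U} (hmax : ∀ w ∈ W, q w ≠ some u)
    {g : U → V} (hg : g ∈ Val par q v0 W) :
    Function.update g u v0 ∈ Val par q v0 (W.erase u) := by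
  rw [mem_Val] at hg ⊢
  obtain ⟨h1, h2, h3⟩ := hg
  refine ⟨?_, ?_, ?_⟩
  · intro z hz
    by_cases hzu : z = u
    · subst hzu; simp
    · rw [Function.update_of_ne hzu]
      apply h1
      intro hzW
      exact hz (mem_erase.mpr ⟨hzu, hzW⟩)
  · intro a ha b hb hab
    have ha' := mem_erase.mp (mem_coe.mp ha)
    have hb' := mem_erase.mp (mem_coe.mp hb)
    rw [Function.update_of_ne ha'.1, Function.update_of_ne hb'.1] at hab
    exact h2 (mem_coe.mpr ha'.2) (mem_coe.mpr hb'.2) hab
  · intro a ha w hw
    have ha' := mem_erase.mp ha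
    have hwu : w ≠ u := by
      rintro rfl
      exact hmax a ha'.2 hw
    rw [Function.update_of_ne ha'.1, Function.update_of_ne hwu]
    exact h3 a ha'.2 w hw

theorem sum_wt_le (hΦ : ∀ Y, 1 ≤ Φ Y) {C1 C2 : ℝ} (hC1 : 0 ≤ C1) (hC2 : 0 ≤ C2)
    (hL : ∀ Y : Finset V, ∑ y ∈ Y, Φ (ch par y) * Φ (Y.erase y) ≤ C1 * Φ Y)
    (hS : ∑ y, Φ (ch par y) ≤ C2) (t : U → ℕ) :
    ∀ (m : ℕ) (W : Finset U), W.card = m → (∀ u ∈ W, ∀ w, q u = some w → w ∈ W ∧ t w < t u) →
      ∑ g ∈ Val par q v0 W, wt par q Φ W g ≤
        C2 ^ (W.filter (fun u => q u = none)).card * C1 ^ (W.filter (fun u => q u ≠ none)).card := by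
  intro m
  induction m with
  | zero =>
    intro W hW _
    rw [card_eq_zero.mp hW]
    have : Val par q v0 (∅ : Finset U) = {fun _ => v0} := by
      ext g
      rw [mem_Val, mem_singleton]
      constructor
      · rintro ⟨h, _⟩
        funext u
        exact h u (notMem_empty u)
      · rintro rfl
        simp
    rw [this]
    simp [wt]
  | succ m ih =>
    intro W hW hcl
    have hne : W.Nonempty := card_pos.mp (by omega)
    obtain ⟨u, hu, humax⟩ := exists_max_image W t hne
    have hmax : ∀ w ∈ W, q w ≠ some u := by
      intro w hw h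
      have h1 := (hcl w hw u h).2
      have h2 := humax w hw
      omega
    have hcl' : ∀ z ∈ W.erase u, ∀ w, q z = some w → w ∈ W.erase u ∧ t w < t z := by
      intro z hz w hw
      have h1 := hcl z (mem_of_mem_erase hz) w hw
      refine ⟨mem_erase.mpr ⟨?_, h1.1⟩, h1.2⟩
      rintro rfl
      exact hmax z (mem_of_mem_erase hz) hw
    have IH := ih (W.erase u) (by rw [card_erase_of_mem hu]; omega) hcl'
    have hΦ0 : ∀ Y, 0 ≤ Φ Y := fun Y => by linarith [hΦ Y]
    rw [← sum_fiberwise_of_maps_to (s := Val par q v0 W) (t := Val par q v0 (W.erase u))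
      (g := fun g => Function.update g u v0) (fun g hg => Val_update hmax hg)]
    rcases hq : q u with _ | w
    · -- a root
      have h1 : ∀ g' ∈ Val par q v0 (W.erase u),
          ∑ g ∈ (Val par q v0 W).filter (fun g => Function.update g u v0 = g'), wt par q Φ W g ≤
            C2 * wt par q Φ (W.erase u) g' := by
        intro g' _
        refine le_trans (fiber_sum hu hΦ0 g' univ (fun _ _ _ => mem_univ _)) ?_
        have h2 : ∀ y, wt par q Φ W (Function.update g' u y) =
            Φ (ch par y) * wt par q Φ (W.erase u) g' := by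
          intro y
          unfold wt
          rw [← mul_prod_erase W _ hu, Dn_self hu hmax]
          congr 1
          apply prod_congr rfl
          intro z hz
          rw [Dn_ne (ne_of_mem_erase hz) (by rw [hq]; simp)]
        simp only [h2]
        rw [← sum_mul]
        apply mul_le_mul_of_nonneg_right hS
        exact prod_nonneg (fun _ _ => hΦ0 _)
      refine le_trans (sum_le_sum h1) ?_
      rw [← mul_sum]
      have e1 : (W.filter (fun u => q u = none)).card =
          ((W.erase u).filter (fun u => q u = none)).card + 1 := by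
        rw [filter_erase, card_erase_of_mem (by simp [hu, hq])]
        have : 0 < (W.filter (fun u => q u = none)).card :=
          card_pos.mpr ⟨u, by simp [hu, hq]⟩
        omega
      have e2 : (W.filter (fun u => q u ≠ none)).card =
          ((W.erase u).filter (fun u => q u ≠ none)).card := by
        rw [filter_erase, erase_eq_of_notMem]
        simp [hq]
      rw [e1, e2, pow_succ]
      calc C2 * ∑ g' ∈ Val par q v0 (W.erase u), wt par q Φ (W.erase u) g'
          ≤ C2 * _ := mul_le_mul_of_nonneg_left IH hC2
        _ = _ := by ring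
    · -- a child of `w`
      have hwW := hcl u hu w hq
      have hwu : w ≠ u := by
        rintro rfl
        exact absurd hwW.2 (lt_irrefl _)
      have hwW' : w ∈ W.erase u := mem_erase.mpr ⟨hwu, hwW.1⟩
      have h1 : ∀ g' ∈ Val par q v0 (W.erase u),
          ∑ g ∈ (Val par q v0 W).filter (fun g => Function.update g u v0 = g'), wt par q Φ W g ≤
            C1 * wt par q Φ (W.erase u) g' := by
        intro g' _
        refine le_trans (fiber_sum hu hΦ0 g' (Dn par q (W.erase u) g' w) ?_) ?_
        · intro g hg hgg'
          rw [mem_Val] at hg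
          unfold Dn
          rw [mem_sdiff, mem_ch]
          have hgw : g' w = g w := by rw [← hgg', Function.update_of_ne hwu]
          refine ⟨by rw [hgw]; exact hg.2.2 u hu w hq, ?_⟩
          intro hmem
          obtain ⟨z, hz, hzu⟩ := mem_image.mp hmem
          rw [mem_filter, mem_erase] at hz
          rw [← hgg', Function.update_of_ne hz.1.1] at hzu
          exact hz.1.1 (hg.2.1 (mem_coe.mpr hz.1.2) (mem_coe.mpr hu) hzu)
        · have h2 : ∀ y, wt par q Φ W (Function.update g' u y) =
              Φ (ch par y) * Φ ((Dn par q (W.erase u) g' w).erase y) *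
                ∏ z ∈ (W.erase u).erase w, Φ (Dn par q (W.erase u) g' z) := by
            intro y
            unfold wt
            rw [← mul_prod_erase W _ hu, Dn_self hu hmax, ← mul_prod_erase (W.erase u) _ hwW',
              Dn_par hu hwu hq, mul_assoc]
            congr 2
            apply prod_congr rfl
            intro z hz
            have hz1 := ne_of_mem_erase hz
            have hz2 := ne_of_mem_erase (mem_of_mem_erase hz)
            rw [Dn_ne hz2]
            rw [hq]
            intro h
            exact hz1 (Option.some.inj h).symm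
          simp only [h2]
          rw [← sum_mul]
          unfold wt
          rw [← mul_prod_erase (W.erase u) _ hwW', ← mul_assoc]
          apply mul_le_mul_of_nonneg_right (hL _)
          exact prod_nonneg (fun _ _ => hΦ0 _)
      refine le_trans (sum_le_sum h1) ?_
      rw [← mul_sum]
      have e1 : (W.filter (fun u => q u ≠ none)).card =
          ((W.erase u).filter (fun u => q u ≠ none)).card + 1 := by
        rw [filter_erase, card_erase_of_mem (by simp [hu, hq])]
        have : 0 < (W.filter (fun u => q u ≠ none)).card :=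
          card_pos.mpr ⟨u, by simp [hu, hq]⟩
        omega
      have e2 : (W.filter (fun u => q u = none)).card =
          ((W.erase u).filter (fun u => q u = none)).card := by
        rw [filter_erase, erase_eq_of_notMem]
        simp [hq]
      rw [e1, e2, pow_succ]
      calc C1 * ∑ g' ∈ Val par q v0 (W.erase u), wt par q Φ (W.erase u) g'
          ≤ C1 * _ := mul_le_mul_of_nonneg_left IH hC1
        _ = _ := by ring

/-- The number of the embeddings of a rooted forest. -/
theorem card_Val_le (hΦ : ∀ Y, 1 ≤ Φ Y) {C1 C2 : ℝ} (hC1 : 0 ≤ C1) (hC2 : 0 ≤ C2)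
    (hL : ∀ Y : Finset V, ∑ y ∈ Y, Φ (ch par y) * Φ (Y.erase y) ≤ C1 * Φ Y)
    (hS : ∑ y, Φ (ch par y) ≤ C2) (t : U → ℕ) (W : Finset U)
    (hcl : ∀ u ∈ W, ∀ w, q u = some w → w ∈ W ∧ t w < t u) :
    ((Val par q v0 W).card : ℝ) ≤
        C2 ^ (W.filter (fun u => q u = none)).card * C1 ^ (W.filter (fun u => q u ≠ none)).card := by
  refine le_trans ?_ (sum_wt_le (v0 := v0) hΦ hC1 hC2 hL hS t W.card W rfl hcl)
  calc ((Val par q v0 W).card : ℝ) = ∑ g ∈ Val par q v0 W, (1 : ℝ) := by simp
    _ ≤ _ := by
      apply sum_le_sum
      intro g _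
      unfold wt
      calc (1 : ℝ) = ∏ u ∈ W, (1 : ℝ) := by simp
        _ ≤ _ := prod_le_prod (fun _ _ => zero_le_one) (fun u _ => hΦ _)

end

end Pool.Agent.TH644.KK
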