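import Pool.Agent.TH644.KK.Gamma

/-!
# The number of copies of a set of edges in a rooted forest
-/

set_option autoImplicit false
set_option linter.unusedSectionVars false

open Finset
open scoped Nat

namespace Pool.Agent.TH644.KK

variable {V : Type*} [Fintype V] [DecidableEq V]

/-- the vertices touched by a set of pairs -/
def touch {n : ℕ} (T : Finset (Fin n × Fin n)) : Finset (Fin n) :=
  T.image Prod.fst ∪ T.image Prod.snd

lemma mem_touch {n : ℕ} {T : Finset (Fin n × Fin n)} {u : Fin n} :
    u ∈ touch T ↔ (∃ v, (u, v) ∈ T) ∨ ∃ v, (v, u) ∈ T := by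
  simp only [touch, mem_union, mem_image, Prod.exists, exists_and_right, exists_eq_right]

lemma touch_card {n : ℕ} (T : Finset (Fin n × Fin n)) : (touch T).card ≤ 2 * T.card := by
  unfold touch
  refine le_trans (card_union_le _ _) ?_
  have h1 := card_image_le (s := T) (f := Prod.fst)
  have h2 := card_image_le (s := T) (f := Prod.snd)
  omega

/-- the embeddings of `T` -/
noncomputable def Embs (par : V → Option V) (v0 : V) {n : ℕ} (T : Finset (Fin n × Fin n)) :
    Finset (Fin n → V) :=
  open Classical in
  univ.filter (fun g => (∀ u ∉ touch T, g u = v0) ∧ Set.InjOn g (touch T) ∧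
    ∀ e ∈ T, par (g e.2) = some (g e.1) ∨ par (g e.1) = some (g e.2))

lemma mem_Embs {par : V → Option V} {v0 : V} {n : ℕ} {T : Finset (Fin n × Fin n)}
    {g : Fin n → V} : g ∈ Embs par v0 T ↔ (∀ u ∉ touch T, g u = v0) ∧ Set.InjOn g (touch T) ∧
    ∀ e ∈ T, par (g e.2) = some (g e.1) ∨ par (g e.1) = some (g e.2) := by
  simp [Embs]

theorem card_Embs_le {par : V → Option V} {rk : V → ℕ}
    (hrk : ∀ x y, par y = some x → rk x < rk y) {n : ℕ} (hn : Fintype.card V ≤ n) {p : ℝ}
    (hp : 0 < p) (hn0 : 0 < n) (hyp : HypF par n p) (v0 : V) (T : Finset (Fin n × Fin n))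
    (hT : ∀ e ∈ T, e.1 < e.2) :
    ((Embs par v0 T).card : ℝ) ≤ (n : ℝ) ^ (touch T).card * (52496 * p) ^ T.card := by
  classical
  have hn0' : (0 : ℝ) < n := by exact_mod_cast hn0
  have hd0 : (0 : ℝ) < n * p := mul_pos hn0' hp
  have hκ0 : (0 : ℝ) < 8 * (n * p) := by positivity
  obtain ⟨γ, hγ1, hγ⟩ := exists_gamma par rk hrk (8 * (n * p))
  have hsum := sum_gamma_le hrk hn hp hn0 hyp hγ1 hγ
  set κ : ℝ := 8 * (n * p) with hκ
  -- the potential
  have hΦch : ∀ y, Ph γ κ (ch par y) = 1 + γ y / (1 + κ) := by
    intro y
    unfold Ph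
    rw [← hγ y]
  have hL : ∀ Y : Finset V, ∑ y ∈ Y, Ph γ κ (ch par y) * Ph γ κ (Y.erase y) ≤
      17 * κ * Ph γ κ Y := by
    intro Y
    have := local_ineq hγ1 hκ0 Y
    refine le_trans (le_of_eq ?_) this
    apply sum_congr rfl
    intro y _
    rw [hΦch]
  have hS : ∑ y, Ph γ κ (ch par y) ≤ 193 * n := by
    calc ∑ y, Ph γ κ (ch par y) ≤ ∑ y, (1 + γ y) := by
          apply sum_le_sum
          intro y _
          rw [hΦch]
          have h1 := hγ1 y
          have : γ y / (1 + κ) ≤ γ y := div_le_self (by linarith) (by linarith)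
          linarith
      _ = (Fintype.card V : ℝ) + ∑ y, γ y := by rw [sum_add_distrib]; simp
      _ ≤ n + 192 * n := by
          have : (Fintype.card V : ℝ) ≤ n := by exact_mod_cast hn
          linarith
      _ = 193 * n := by ring
  have hΦ1 : ∀ Y : Finset V, 1 ≤ Ph γ κ Y := fun Y => one_le_Ph hκ0 Y
  -- one orientation
  have hone : ∀ o ∈ T.powerset,
      (((Embs par v0 T).filter (fun g => T.filter (fun e => par (g e.2) = some (g e.1)) = o)).card
        : ℝ) ≤ (n : ℝ) ^ (touch T).card * (26248 * p) ^ T.card := by
    intro o _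
    rcases ((Embs par v0 T).filter
      (fun g => T.filter (fun e => par (g e.2) = some (g e.1)) = o)).eq_empty_or_nonempty with
      he | ⟨g0, hg0⟩
    · rw [he, card_empty]
      push_cast
      positivity
    rw [mem_filter, mem_Embs] at hg0
    obtain ⟨⟨_, hinj0, hadj0⟩, ho0⟩ := hg0
    -- the parent relation
    let E : Fin n → Fin n → Prop := fun i j => (i, j) ∈ o ∨ ((j, i) ∈ T ∧ (j, i) ∉ o)
    have hE : ∀ g ∈ (Embs par v0 T).filter
        (fun g => T.filter (fun e => par (g e.2) = some (g e.1)) = o), ∀ i j, E i j →
        par (g j) = some (g i) := by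
      intro g hg i j hij
      rw [mem_filter, mem_Embs] at hg
      obtain ⟨⟨_, _, hadj⟩, ho⟩ := hg
      rcases hij with h | ⟨h1, h2⟩
      · rw [← ho, mem_filter] at h
        exact h.2
      · rw [← ho, mem_filter] at h2
        rcases hadj _ h1 with h3 | h3
        · exact absurd ⟨h1, h3⟩ h2
        · exact h3
    have hg0' : g0 ∈ (Embs par v0 T).filter
        (fun g => T.filter (fun e => par (g e.2) = some (g e.1)) = o) := by
      rw [mem_filter, mem_Embs]
      exact ⟨⟨by assumption, hinj0, hadj0⟩, ho0⟩
    have hoT : ∀ e ∈ o, e ∈ T := by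
      intro e he
      rw [← ho0, mem_filter] at he
      exact he.1
    have hEtouch : ∀ i j, E i j → i ∈ touch T ∧ j ∈ touch T := by
      intro i j hij
      rcases hij with h | ⟨h1, _⟩
      · exact ⟨mem_touch.mpr (Or.inl ⟨j, hoT _ h⟩), mem_touch.mpr (Or.inr ⟨i, hoT _ h⟩)⟩
      · exact ⟨mem_touch.mpr (Or.inr ⟨j, h1⟩), mem_touch.mpr (Or.inl ⟨i, h1⟩)⟩
    have hEuniq : ∀ i i' j, E i j → E i' j → i = i' := by
      intro i i' j h h'
      have h1 := hE g0 hg0' i j h
      have h2 := hE g0 hg0' i' j h'
      rw [h1] at h2
      exact hinj0 (hEtouch i j h).1 (hEtouch i' j h').1 (Option.some.inj h2)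
    let q : Fin n → Option (Fin n) := fun j => if h : ∃ i, E i j then some h.choose else none
    have hq : ∀ i j, q j = some i ↔ E i j := by
      intro i j
      by_cases h : ∃ i, E i j
      · have hqj : q j = some h.choose := by simp only [q, h, dif_pos]
        rw [hqj]
        constructor
        · intro h1
          have := h.choose_spec
          rw [Option.some.inj h1] at this
          exact this
        · intro h1
          rw [hEuniq _ _ _ h1 h.choose_spec]
      · have hqj : q j = none := by simp only [q, h, dif_neg, not_false_eq_true]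
        rw [hqj]
        constructor
        · intro h1; exact absurd h1 (by simp)
        · intro h1; exact absurd ⟨i, h1⟩ h
    have hsub : (Embs par v0 T).filter
        (fun g => T.filter (fun e => par (g e.2) = some (g e.1)) = o) ⊆ Val par q v0 (touch T) := by
      intro g hg
      have hg' := hg
      rw [mem_filter, mem_Embs] at hg
      rw [mem_Val]
      refine ⟨hg.1.1, hg.1.2.1, ?_⟩
      intro u _ w hw
      exact hE g hg' w u ((hq w u).mp hw)
    have hcount := card_Val_le (par := par) (q := q) (v0 := v0) hΦ1 (C1 := 17 * κ)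
      (C2 := 193 * n) (by positivity) (by positivity) hL hS (fun u => rk (g0 u)) (touch T) (by
        intro u _ w hw
        have h1 := (hq w u).mp hw
        exact ⟨(hEtouch w u h1).1, hrk _ _ (hE g0 hg0' w u h1)⟩)
    -- the number of children is the number of edges
    have hnr : ((touch T).filter (fun u => q u ≠ none)).card = T.card := by
      symm
      apply card_bij (fun e _ => if e ∈ o then e.2 else e.1)
      · intro e he
        rw [mem_filter]
        by_cases h : e ∈ o
        · simp only [h, if_true]
          have h1 : E e.1 e.2 := Or.inl h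
          exact ⟨(hEtouch _ _ h1).2, by rw [(hq _ _).mpr h1]; simp⟩
        · simp only [h, if_false]
          have h1 : E e.2 e.1 := Or.inr ⟨he, h⟩
          exact ⟨(hEtouch _ _ h1).2, by rw [(hq _ _).mpr h1]; simp⟩
      · intro e he e' he' heq
        have hlt := hT e he
        have hlt' := hT e' he'
        by_cases h : e ∈ o <;> by_cases h' : e' ∈ o
        · simp only [h, h', if_true] at heq
          have h1 : E e.1 e.2 := Or.inl h
          have h2 : E e'.1 e'.2 := Or.inl h'
          rw [← heq] at h2
          exact Prod.ext (hEuniq _ _ _ h1 h2) heq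
        · simp only [h, h', if_true, if_false] at heq
          have h1 : E e.1 e.2 := Or.inl h
          have h2 : E e'.2 e'.1 := Or.inr ⟨he', h'⟩
          rw [← heq] at h2
          have h3 := hEuniq _ _ _ h1 h2
          rw [h3, heq] at hlt
          exact absurd hlt (not_lt.mpr hlt'.le)
        · simp only [h, h', if_true, if_false] at heq
          have h1 : E e.2 e.1 := Or.inr ⟨he, h⟩
          have h2 : E e'.1 e'.2 := Or.inl h'
          rw [← heq] at h2
          have h3 := hEuniq _ _ _ h1 h2
          rw [h3, heq] at hlt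
          exact absurd hlt (not_lt.mpr hlt'.le)
        · simp only [h, h', if_false] at heq
          have h1 : E e.2 e.1 := Or.inr ⟨he, h⟩
          have h2 : E e'.2 e'.1 := Or.inr ⟨he', h'⟩
          rw [← heq] at h2
          exact Prod.ext heq (hEuniq _ _ _ h1 h2)
      · intro u hu
        rw [mem_filter] at hu
        obtain ⟨w, hw⟩ := Option.ne_none_iff_exists'.mp hu.2
        rcases (hq w u).mp hw with h | ⟨h1, h2⟩
        · exact ⟨(w, u), hoT _ h, by simp [h]⟩
        · exact ⟨(u, w), h1, by simp [h2]⟩
    have hroots : ((touch T).filter (fun u => q u = none)).card + T.card = (touch T).card := by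
      rw [← hnr]
      exact card_filter_add_card_filter_not _
    rw [hnr] at hcount
    set r := ((touch T).filter (fun u => q u = none)).card with hr
    have hrle : r ≤ T.card := by
      have := touch_card T
      omega
    calc (((Embs par v0 T).filter
          (fun g => T.filter (fun e => par (g e.2) = some (g e.1)) = o)).card : ℝ)
        ≤ ((Val par q v0 (touch T)).card : ℝ) := by exact_mod_cast card_le_card hsub
      _ ≤ (193 * n) ^ r * (17 * κ) ^ T.card := hcount
      _ = (n : ℝ) ^ (r + T.card) * (193 ^ r * (136 * p) ^ T.card) := by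
          rw [hκ, mul_pow, pow_add]
          have : (17 * (8 * ((n : ℝ) * p))) ^ T.card = (n : ℝ) ^ T.card * (136 * p) ^ T.card := by
            rw [← mul_pow]; ring
          rw [this]
          ring
      _ ≤ (n : ℝ) ^ (r + T.card) * (193 ^ T.card * (136 * p) ^ T.card) := by
          apply mul_le_mul_of_nonneg_left _ (by positivity)
          apply mul_le_mul_of_nonneg_right _ (by positivity)
          exact pow_le_pow_right₀ (by norm_num) hrle
      _ = (n : ℝ) ^ (touch T).card * (26248 * p) ^ T.card := by
          rw [hroots, ← mul_pow]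
          ring
  -- sum over the orientations
  have hmaps : ∀ g ∈ Embs par v0 T, T.filter (fun e => par (g e.2) = some (g e.1)) ∈ T.powerset :=
    fun g _ => mem_powerset.mpr (filter_subset _ _)
  rw [card_eq_sum_card_fiberwise hmaps]
  push_cast
  calc ∑ o ∈ T.powerset, (((Embs par v0 T).filter
        (fun g => T.filter (fun e => par (g e.2) = some (g e.1)) = o)).card : ℝ)
      ≤ ∑ o ∈ T.powerset, (n : ℝ) ^ (touch T).card * (26248 * p) ^ T.card := sum_le_sum hone
    _ = 2 ^ T.card * ((n : ℝ) ^ (touch T).card * (26248 * p) ^ T.card) := by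
        rw [sum_const, card_powerset, nsmul_eq_mul]
        push_cast
        ring
    _ = (n : ℝ) ^ (touch T).card * (52496 * p) ^ T.card := by
        have : (52496 * p) ^ T.card = 2 ^ T.card * (26248 * p) ^ T.card := by
          rw [← mul_pow]; ring
        rw [this]
        ring

end Pool.Agent.TH644.KK
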