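import Pool.Agent.TH644.KK.Gamma

/-!
# From the expected counts of subgraphs to the hypothesis on subforests
-/

set_option autoImplicit false
set_option linter.unusedSectionVars false

open Finset
open scoped Nat

namespace Pool.Agent.TH644.KK

theorem hypF_of_subgraphs {m n : ℕ} (H : SimpleGraph (Fin m)) (par : Fin m → Option (Fin m))
    (rk : Fin m → ℕ) (hrk : ∀ x y, par y = some x → rk x < rk y)
    (hadj : ∀ x y, H.Adj x y ↔ (par x = some y ∨ par y = some x)) (p : ℝ) (hp : 0 ≤ p)
    (h : ∀ H' : H.Subgraph,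
      1 ≤ (n.descFactorial H'.verts.ncard : ℝ) / (Nat.card (H'.coe ≃g H'.coe) : ℝ)
        * p ^ H'.edgeSet.ncard) : HypF par n p := by
  classical
  intro p' hp' S hS W hW
  have hrk' : ∀ x y, p' y = some x → rk x < rk y := fun x y hxy => hrk x y (hp' y x hxy)
  -- elements of `W` are in `S` or have a parent in `W`
  have hWpar : ∀ z ∈ W, z ∉ S → ∃ w ∈ W, p' z = some w := by
    intro z hz hzS
    rw [hW, mem_desc] at hz
    obtain ⟨x, hx, hxz⟩ := hz
    rcases Relation.ReflTransGen.cases_tail hxz with rfl | ⟨w, hxw, hwz⟩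
    · exact absurd hx hzS
    · exact ⟨w, by rw [hW, mem_desc]; exact ⟨x, hx, hxw⟩, hwz⟩
  have hSW : S ⊆ W := by rw [hW]; exact subset_desc S
  let H' : H.Subgraph :=
    { verts := (W : Set (Fin m))
      Adj := fun a b => (a ∈ W ∧ b ∈ W) ∧ (p' a = some b ∨ p' b = some a)
      adj_sub := by
        intro a b hab
        rw [hadj]
        exact hab.2.imp (hp' _ _) (hp' _ _)
      edge_vert := by
        intro a b hab
        exact hab.1.1
      symm := ⟨fun a b hab => ⟨⟨hab.1.2, hab.1.1⟩, hab.2.symm⟩⟩ }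
  have hv : H'.verts.ncard = W.card := Set.ncard_coe_finset W
  have he : H'.edgeSet.ncard = W.card - S.card := by
    have h1 : H'.edgeSet = ((W \ S).image (fun z => s(z, (p' z).getD z)) : Finset _) := by
      ext e
      induction e using Sym2.ind with
      | _ a b =>
        rw [SimpleGraph.Subgraph.mem_edgeSet, Finset.mem_coe, Finset.mem_image]
        constructor
        · rintro ⟨⟨ha, hb⟩, hab | hab⟩
          · refine ⟨a, ?_, ?_⟩
            · rw [Finset.mem_sdiff]
              refine ⟨ha, fun hs => ?_⟩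
              rw [hS a hs] at hab
              exact absurd hab (by simp)
            · rw [hab]; rfl
          · refine ⟨b, ?_, ?_⟩
            · rw [Finset.mem_sdiff]
              refine ⟨hb, fun hs => ?_⟩
              rw [hS b hs] at hab
              exact absurd hab (by simp)
            · rw [hab, Option.getD_some, Sym2.eq_swap]
        · rintro ⟨z, hz, hze⟩
          rw [Finset.mem_sdiff] at hz
          obtain ⟨w, hw, hzw⟩ := hWpar z hz.1 hz.2
          rw [hzw, Option.getD_some, Sym2.eq_iff] at hze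
          rcases hze with ⟨rfl, rfl⟩ | ⟨rfl, rfl⟩
          · exact ⟨⟨hz.1, hw⟩, Or.inl hzw⟩
          · exact ⟨⟨hw, hz.1⟩, Or.inr hzw⟩
    rw [h1, Set.ncard_coe_finset, Finset.card_image_of_injOn, Finset.card_sdiff_of_subset hSW]
    intro z hz z' hz' hzz
    rw [Finset.mem_coe, Finset.mem_sdiff] at hz hz'
    obtain ⟨w, hw, hzw⟩ := hWpar z hz.1 hz.2
    obtain ⟨w', hw', hzw'⟩ := hWpar z' hz'.1 hz'.2
    simp only [hzw, hzw', Option.getD_some, Sym2.eq_iff] at hzz
    rcases hzz with ⟨rfl, _⟩ | ⟨h2, h3⟩
    · rfl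
    · subst h2
      subst h3
      have h4 := hrk' _ _ hzw
      have h5 := hrk' _ _ hzw'
      omega
  have h0 := h H'
  rw [hv, he] at h0
  -- automorphisms
  have hfin : Finite (H'.coe ≃g H'.coe) := by
    apply Finite.of_injective (fun f => f.toEquiv)
    intro f f' h
    exact RelIso.toEquiv_injective h
  have hA : (Nat.card {σ : Equiv.Perm W // ∀ x y : W,
        (p' x = some (y : Fin m) ∨ p' y = some (x : Fin m)) ↔
        (p' (σ x) = some (σ y : Fin m) ∨ p' (σ y) = some (σ x : Fin m))}) ≤
      Nat.card (H'.coe ≃g H'.coe) := by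
    let F : {σ : Equiv.Perm W // ∀ x y : W,
        (p' x = some (y : Fin m) ∨ p' y = some (x : Fin m)) ↔
        (p' (σ x) = some (σ y : Fin m) ∨ p' (σ y) = some (σ x : Fin m))} →
        (H'.coe ≃g H'.coe) := fun σ =>
      { toEquiv := σ.1
        map_rel_iff' := by
          intro a b
          have h1 := σ.2 a b
          constructor
          · intro hab
            exact ⟨⟨a.2, b.2⟩, h1.mpr hab.2⟩
          · intro hab
            exact ⟨⟨(σ.1 a).2, (σ.1 b).2⟩, h1.mp hab.2⟩ }
    have hF : Function.Injective F := by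
      intro g g' hgg
      apply Subtype.ext
      have := congrArg (fun f => f.toEquiv) hgg
      exact this
    exact Nat.card_le_card_of_injective F hF
  have hpos : (0 : ℝ) < Nat.card (H'.coe ≃g H'.coe) := by
    have : Nonempty (H'.coe ≃g H'.coe) := ⟨RelIso.refl _⟩
    exact_mod_cast Nat.card_pos
  rw [div_mul_eq_mul_div, le_div_iff₀ hpos, one_mul] at h0
  calc (Nat.card {σ : Equiv.Perm W // ∀ x y : W,
        (p' x = some (y : Fin m) ∨ p' y = some (x : Fin m)) ↔
        (p' (σ x) = some (σ y : Fin m) ∨ p' (σ y) = some (σ x : Fin m))} : ℝ)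
      ≤ Nat.card (H'.coe ≃g H'.coe) := by exact_mod_cast hA
    _ ≤ (n.descFactorial W.card : ℝ) * p ^ (W.card - S.card) := h0
    _ ≤ (n : ℝ) ^ W.card * p ^ (W.card - S.card) := by
        apply mul_le_mul_of_nonneg_right _ (by positivity)
        exact_mod_cast Nat.descFactorial_le_pow n _

end Pool.Agent.TH644.KK
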