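import Pool.Agent.TH644.KK.Emb
import Pool.Agent.TH644.KK.Acyc
import Pool.Agent.TH644.KK.Hyp
import Pool.Agent.TH965.Final

/-!
# The threshold for containing a forest
-/

set_option autoImplicit false
set_option linter.unusedSectionVars false

open Finset
open scoped Classical
open Pool.Agent.TH965 Pool.Agent.TH965.Emb Pool.Agent.TH965.Copy Pool.Agent.TH965.Spread

namespace Pool.Agent.TH644.KK

/-- the increasing pairs of a set of edges -/
noncomputable def incr {n : ℕ} (T : Finset (Sym2 (Fin n))) : Finset (Fin n × Fin n) :=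
  univ.filter (fun e => e.1 < e.2 ∧ s(e.1, e.2) ∈ T)

lemma mem_incr {n : ℕ} {T : Finset (Sym2 (Fin n))} {e : Fin n × Fin n} :
    e ∈ incr T ↔ e.1 < e.2 ∧ s(e.1, e.2) ∈ T := by simp [incr]

lemma card_incr {n : ℕ} (T : Finset (Sym2 (Fin n))) (hT : ∀ e ∈ T, ¬ e.IsDiag) :
    (incr T).card = T.card := by
  apply card_bij (fun e _ => s(e.1, e.2))
  · intro e he
    exact (mem_incr.mp he).2
  · rintro ⟨a, b⟩ he ⟨a', b'⟩ he' h
    have h1 := (mem_incr.mp he).1
    have h2 := (mem_incr.mp he').1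
    rw [Sym2.eq_iff] at h
    rcases h with ⟨h3, h4⟩ | ⟨h3, h4⟩
    · exact Prod.ext h3 h4
    · simp only at h1 h2 h3 h4
      rw [h3, h4] at h1
      exact absurd h1 (not_lt.mpr h2.le)
  · intro e he
    induction e using Sym2.ind with
    | _ a b =>
      have hab : a ≠ b := by
        intro hab
        apply hT _ he
        rw [hab]
        exact rfl
      rcases lt_or_gt_of_ne hab with h | h
      · exact ⟨(a, b), mem_incr.mpr ⟨h, he⟩, rfl⟩
      · refine ⟨(b, a), mem_incr.mpr ⟨h, ?_⟩, Sym2.eq_swap⟩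
        rw [Sym2.eq_swap]
        exact he

lemma touch_incr {n : ℕ} (T : Finset (Sym2 (Fin n))) (hT : ∀ e ∈ T, ¬ e.IsDiag) :
    touch (incr T) = supp T := by
  ext u
  rw [mem_touch, mem_supp]
  constructor
  · rintro (⟨v, hv⟩ | ⟨v, hv⟩)
    · exact ⟨_, (mem_incr.mp hv).2, Sym2.mem_mk_left _ _⟩
    · exact ⟨_, (mem_incr.mp hv).2, Sym2.mem_mk_right _ _⟩
  · rintro ⟨e, he, hue⟩
    obtain ⟨v, rfl⟩ := hue
    have hab : u ≠ v := by
      intro hab
      apply hT _ he
      rw [hab]
      exact rfl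
    rcases lt_or_gt_of_ne hab with h | h
    · exact Or.inl ⟨v, mem_incr.mpr ⟨h, he⟩⟩
    · refine Or.inr ⟨v, mem_incr.mpr ⟨h, ?_⟩⟩
      rw [Sym2.eq_swap]
      exact he

/-- The number of embeddings of a graph into a forest. -/
theorem embF_forest_le {n m : ℕ} (hn : 2 ≤ n) (hmn : m ≤ n) (H : SimpleGraph (Fin m))
    (hac : H.IsAcyclic) (v0 : Fin m) (p : ℝ) (hp : 0 < p)
    (h : ∀ H' : H.Subgraph,
      1 ≤ (n.descFactorial H'.verts.ncard : ℝ) / (Nat.card (H'.coe ≃g H'.coe) : ℝ)
        * p ^ H'.edgeSet.ncard)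
    (T : Finset (Sym2 (Fin n))) (hT : ∀ e ∈ T, ¬ e.IsDiag) :
    ((embF (gT T) H).card : ℝ) ≤ (52496 * p) ^ T.card * (n : ℝ) ^ (supp T).card := by
  obtain ⟨par, rk, hrk, hadj⟩ := exists_par H hac
  have hyp := hypF_of_subgraphs H par rk hrk hadj p hp.le h
  have h1 := card_Embs_le hrk (n := n) (by rw [Fintype.card_fin]; exact hmn) hp (by omega) hyp v0
    (incr T) (fun e he => (mem_incr.mp he).1)
  rw [card_incr T hT, touch_incr T hT] at h1
  have h2 : (embF (gT T) H).card ≤ (Embs par v0 (incr T)).card := by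
    apply card_le_card_of_injOn
      (fun ψ => fun u => if h : u ∈ supp T then ψ ⟨u, h⟩ else v0)
    · intro ψ hψ
      rw [mem_coe, mem_embF] at hψ
      rw [mem_coe, mem_Embs, touch_incr T hT]
      refine ⟨?_, ?_, ?_⟩
      · intro u hu
        simp only [dif_neg hu]
      · intro u hu v hv huv
        rw [mem_coe] at hu hv
        simp only [dif_pos hu, dif_pos hv] at huv
        exact congrArg Subtype.val (hψ.1 huv)
      · intro e he
        obtain ⟨hlt, heT⟩ := mem_incr.mp he
        have hu : e.1 ∈ supp T := mem_supp.mpr ⟨_, heT, Sym2.mem_mk_left _ _⟩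
        have hv : e.2 ∈ supp T := mem_supp.mpr ⟨_, heT, Sym2.mem_mk_right _ _⟩
        simp only [dif_pos hu, dif_pos hv]
        have h3 := hψ.2 ⟨e.1, hu⟩ ⟨e.2, hv⟩
          ⟨fun h => hlt.ne (congrArg Subtype.val h), heT⟩
        rw [hadj] at h3
        exact h3.symm
    · intro ψ _ ψ' _ hψ
      funext x
      have := congrFun hψ x.1
      simp only [dif_pos x.2] at this
      exact this
  calc ((embF (gT T) H).card : ℝ) ≤ (Embs par v0 (incr T)).card := by exact_mod_cast h2
    _ ≤ _ := h1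
    _ = _ := mul_comm _ _

/-- The upper bound on the threshold, for each admissible `p`. -/
lemma forest_threshold_le {n m : ℕ} (hn : 2 ≤ n) (hmn : m ≤ n) (H : SimpleGraph (Fin m))
    (hac : H.IsAcyclic) (v0 : Fin m) (p : ℝ) (hp : 0 < p)
    (h : ∀ H' : H.Subgraph,
      1 ≤ (n.descFactorial H'.verts.ncard : ℝ) / (Nat.card (H'.coe ≃g H'.coe) : ℝ)
        * p ^ H'.edgeSet.ncard)
    (pc : ℝ) (hpc1 : pc ≤ 1)
    (hpc : gnp n pc (fun G => H.IsContained G) ≤ 1 / 2) :
    pc ≤ (Nat.log 2 H.edgeSet.ncard + 1 : ℝ) * (32 * (52496 * p * Real.exp 2)) := by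
  by_contra hcon
  push Not at hcon
  set p' : ℝ := (Nat.log 2 H.edgeSet.ncard + 1 : ℝ) * (32 * (52496 * p * Real.exp 2)) with hp'
  have hp'1 : p' ≤ 1 := (hcon.le).trans hpc1
  have hp'0 : 0 ≤ p' := by positivity
  have hspr : ∀ T : Finset (Sym2 (Fin n)),
      (Nat.card {σ : Equiv.Perm (Fin n) // T ⊆ cop hmn H σ} : ℝ)
      ≤ (52496 * p * Real.exp 2) ^ T.card * Fintype.card (Equiv.Perm (Fin n)) := by
    intro T
    rw [Nat.card_eq_fintype_card, Fintype.card_subtype]
    by_cases hT : ∀ e ∈ T, ¬ e.IsDiag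
    · exact card_through hmn H T _ (embF_forest_le hn hmn H hac v0 p hp h T hT)
    · push Not at hT
      obtain ⟨e, he, hd⟩ := hT
      have : Finset.univ.filter (fun σ : Equiv.Perm (Fin n) => T ⊆ cop hmn H σ) = ∅ := by
        rw [Finset.eq_empty_iff_forall_notMem]
        intro σ hσ
        exact cop_notDiag hmn H σ e ((Finset.mem_filter.mp hσ).2 he) hd
      rw [this, Finset.card_empty, Nat.cast_zero]
      positivity
  have hsp := spread (eF (⊤ : SimpleGraph (Fin n))) (fun σ : Equiv.Perm (Fin n) => cop hmn H σ)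
    (by
      intro σ e he
      have := cop_notDiag hmn H σ e he
      rw [mem_eF, SimpleGraph.edgeSet_top]
      exact this)
    H.edgeSet.ncard (fun σ => by rw [cop_card, eF_card]) (52496 * p * Real.exp 2) (by positivity)
    hspr p' le_rfl hp'1
  have h1 : 6 / 7 ≤ gnp n p' (fun G => H.IsContained G) := by
    rw [gnp_eq_exs]
    refine hsp.trans ?_
    apply exs_mono _ hp'0 hp'1
    intro W _
    by_cases hex : ∃ σ, cop hmn H σ ⊆ W
    · obtain ⟨σ, hσ⟩ := hex
      rw [if_pos ⟨σ, hσ⟩, if_pos (isContained_of_cop hmn H σ W hσ)]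
    · rw [if_neg hex]
      split_ifs <;> norm_num
  have h2 : gnp n p' (fun G => H.IsContained G) ≤ gnp n pc (fun G => H.IsContained G) := by
    apply gnp_mono n hp'0 hcon.le hpc1
    intro G G' hGG' hH
    exact hH.trans_le hGG'
  linarith

/-- **Upper bound on the threshold of a forest.** -/
theorem forest_threshold_le_pE {n m : ℕ} (hn : 2 ≤ n) (hmn : m ≤ n) (H : SimpleGraph (Fin m))
    (hac : H.IsAcyclic) (hH : H ≠ ⊥) (pc : ℝ) (hpc1 : pc ≤ 1)
    (hpc : gnp n pc (fun G => H.IsContained G) ≤ 1 / 2) :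
    pc ≤ 20000000 * pE n H * Real.log (2 * H.edgeSet.ncard) := by
  have hlog2 : 0.69 < Real.log 2 := by have := Real.log_two_gt_d9; linarith
  have hedge : 1 ≤ H.edgeSet.ncard := by
    rw [Nat.one_le_iff_ne_zero, Ne, Set.ncard_eq_zero]
    intro he
    exact hH (SimpleGraph.edgeSet_eq_empty.mp he)
  have hl2pos : 0 < Real.log 2 := by linarith
  obtain ⟨v0⟩ : Nonempty (Fin m) := by
    by_contra hne
    rw [not_nonempty_iff] at hne
    apply hH
    ext a
    exact hne.elim a
  set l : ℕ := H.edgeSet.ncard with hl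
  have hl' : (1 : ℝ) ≤ l := by exact_mod_cast hedge
  set Lg : ℝ := Real.log (2 * l) with hLg
  have hLgpos : 0 < Lg := Real.log_pos (by linarith)
  have hround : (Nat.log 2 l + 1 : ℝ) ≤ Lg / Real.log 2 := by
    rw [le_div_iff₀ hl2pos]
    have h1 : (2 : ℝ) ^ (Nat.log 2 l) ≤ l := by
      exact_mod_cast Nat.pow_log_le_self 2 (by omega)
    have h2 := Real.log_le_log (by positivity) h1
    rw [Real.log_pow] at h2
    rw [hLg, Real.log_mul (by norm_num) (by positivity)]
    linarith
  -- reduce to a single admissible p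
  have hC : 0 < 20000000 * Lg := by positivity
  have hkey : pc / (20000000 * Lg) ≤ pE n H := by
    unfold pE
    apply le_csInf (pE_set_nonempty hmn H)
    rintro p ⟨hp0, _, hp⟩
    have hppos := pE_set_pos H hH p hp0 hp
    rw [div_le_iff₀ hC]
    have h1 := forest_threshold_le hn hmn H hac v0 p hppos hp pc hpc1 hpc
    have he2 : Real.exp 2 < 7.4 := by
      have h := Real.exp_one_lt_d9
      have h2 : Real.exp 2 = Real.exp 1 * Real.exp 1 := by rw [← Real.exp_add]; norm_num
      have h0 : 0 < Real.exp 1 := Real.exp_pos 1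
      rw [h2]
      nlinarith
    calc pc ≤ (Nat.log 2 l + 1 : ℝ) * (32 * (52496 * p * Real.exp 2)) := h1
      _ ≤ (Lg / Real.log 2) * (32 * (52496 * p * 7.4)) := by
          apply mul_le_mul hround _ (by positivity) (by positivity)
          have : 0 ≤ 52496 * p := by positivity
          nlinarith
      _ = (12431052.8 * (p * Lg)) / Real.log 2 := by
          field_simp
          ring
      _ ≤ p * (20000000 * Lg) := by
          rw [div_le_iff₀ (by positivity)]
          have h4 : 0 ≤ p * Lg := by positivity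
          nlinarith
  rw [div_le_iff₀ hC] at hkey
  calc pc ≤ pE n H * (20000000 * Lg) := hkey
    _ = 20000000 * pE n H * Lg := by ring

end Pool.Agent.TH644.KK
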