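import Mathlib

/-!
# Potentials on sets of siblings

`Gam a Y` is the maximum of `|S|! * ∏ y ∈ S, a y` over the subsets `S` of `Y`.
-/

set_option autoImplicit false

open Finset
open scoped Nat

namespace Pool.Agent.TH644.KK

set_option linter.unusedSectionVars false

variable {V : Type*} [DecidableEq V]

/-- the maximum of `|S|! * ∏ y ∈ S, a y` over the subsets `S` of `Y` -/
noncomputable def Gam (a : V → ℝ) (Y : Finset V) : ℝ :=
  Y.powerset.sup' ⟨∅, empty_mem_powerset Y⟩ (fun S => (S.card ! : ℝ) * ∏ y ∈ S, a y)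

lemma le_Gam (a : V → ℝ) {Y S : Finset V} (h : S ⊆ Y) :
    (S.card ! : ℝ) * ∏ y ∈ S, a y ≤ Gam a Y :=
  Finset.le_sup' (fun S : Finset V => (S.card ! : ℝ) * ∏ y ∈ S, a y) (mem_powerset.mpr h)

lemma one_le_Gam (a : V → ℝ) (Y : Finset V) : 1 ≤ Gam a Y := by
  have := le_Gam a (empty_subset Y)
  simpa using this

lemma exists_Gam (a : V → ℝ) (Y : Finset V) :
    ∃ S ⊆ Y, Gam a Y = (S.card ! : ℝ) * ∏ y ∈ S, a y := by
  obtain ⟨S, hS, h⟩ := Finset.exists_mem_eq_sup' (s := Y.powerset) ⟨∅, empty_mem_powerset Y⟩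
    (fun S : Finset V => (S.card ! : ℝ) * ∏ y ∈ S, a y)
  exact ⟨S, mem_powerset.mp hS, h⟩

lemma Gam_mono (a : V → ℝ) {Y Z : Finset V} (h : Y ⊆ Z) : Gam a Y ≤ Gam a Z := by
  obtain ⟨S, hS, e⟩ := exists_Gam a Y
  rw [e]
  exact le_Gam a (hS.trans h)

/-- `(N / 8) ^ N ≤ (N - 1)!`. -/
lemma pow_le_fact (m : ℕ) : (((m : ℝ) + 1) / 8) ^ (m + 1) ≤ (m ! : ℝ) := by
  induction m with
  | zero => norm_num
  | succ m ih =>
    have hm : (0 : ℝ) < (m : ℝ) + 1 := by positivity
    have h1 : (1 + 1 / ((m : ℝ) + 1)) ^ (m + 1) ≤ 3 := by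
      have h2 : 1 + 1 / ((m : ℝ) + 1) ≤ Real.exp (1 / ((m : ℝ) + 1)) := by
        have := Real.add_one_le_exp (1 / ((m : ℝ) + 1))
        linarith
      calc (1 + 1 / ((m : ℝ) + 1)) ^ (m + 1) ≤ (Real.exp (1 / ((m : ℝ) + 1))) ^ (m + 1) :=
            pow_le_pow_left₀ (by positivity) h2 _
        _ = Real.exp 1 := by
            rw [← Real.exp_nat_mul]
            congr 1
            push_cast
            field_simp
        _ ≤ 3 := by
            have := Real.exp_one_lt_d9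
            linarith
    have h3 : ((((m + 1 : ℕ) : ℝ) + 1) / 8) ^ (m + 1 + 1) =
        (((m : ℝ) + 1) / 8) ^ (m + 1) * (1 + 1 / ((m : ℝ) + 1)) ^ (m + 1) *
          (((m : ℝ) + 2) / 8) := by
      rw [← mul_pow, pow_succ]
      congr 1
      · congr 1
        push_cast
        field_simp
      · push_cast
        ring
    rw [h3, Nat.factorial_succ]
    push_cast
    have h4 : (0 : ℝ) ≤ (m ! : ℝ) := by positivity
    calc (((m : ℝ) + 1) / 8) ^ (m + 1) * (1 + 1 / ((m : ℝ) + 1)) ^ (m + 1) *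
          (((m : ℝ) + 2) / 8) ≤ (m ! : ℝ) * 3 * (((m : ℝ) + 2) / 8) := by
          gcongr
      _ ≤ ((m : ℝ) + 1) * (m ! : ℝ) := by nlinarith

/-- `κ ^ j * s! ≤ (s + j)!` if `8 κ < s + j + 1` -/
lemma kpow_mul_fact {κ : ℝ} (hκ : 0 < κ) (N : ℕ) (h8 : 8 * κ < N + 1) :
    ∀ s j : ℕ, s + j = N → κ ^ j * (s ! : ℝ) ≤ (N ! : ℝ) := by
  -- the case `s = 0`
  have h0 : κ ^ N ≤ (N ! : ℝ) := by
    by_cases h1 : κ ≤ 1
    · calc κ ^ N ≤ 1 := pow_le_one₀ hκ.le h1
        _ ≤ (N ! : ℝ) := by exact_mod_cast Nat.one_le_iff_ne_zero.mpr (Nat.factorial_ne_zero N)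
    · push Not at h1
      calc κ ^ N ≤ κ ^ (N + 1) := by
            rw [pow_succ]
            nlinarith [pow_pos hκ N]
        _ ≤ (((N : ℝ) + 1) / 8) ^ (N + 1) := by
            apply pow_le_pow_left₀ hκ.le
            linarith
        _ ≤ _ := pow_le_fact N
  -- small `s`
  have hlow : ∀ s j : ℕ, s + j = N → (s : ℝ) ≤ κ → κ ^ j * (s ! : ℝ) ≤ (N ! : ℝ) := by
    intro s
    induction s with
    | zero =>
      intro j hj _
      simp only [Nat.zero_add] at hj
      subst hj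
      simpa using h0
    | succ s ih =>
      intro j hj hs
      have h1 := ih (j + 1) (by omega) (by push_cast at hs; linarith)
      refine le_trans ?_ h1
      rw [Nat.factorial_succ, pow_succ]
      push_cast at hs ⊢
      have : 0 ≤ κ ^ j * (s ! : ℝ) := by positivity
      nlinarith
  -- large `s`
  have hhigh : ∀ j s : ℕ, s + j = N → κ ≤ (s : ℝ) + 1 → κ ^ j * (s ! : ℝ) ≤ (N ! : ℝ) := by
    intro j
    induction j with
    | zero =>
      intro s hs _
      simp only [Nat.add_zero] at hs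
      subst hs
      simp
    | succ j ih =>
      intro s hs h1
      have h2 := ih (s + 1) (by omega) (by push_cast; linarith)
      refine le_trans ?_ h2
      rw [Nat.factorial_succ, pow_succ]
      push_cast
      have : 0 ≤ κ ^ j * (s ! : ℝ) := by positivity
      nlinarith
  intro s j hsj
  by_cases h : (s : ℝ) ≤ κ
  · exact hlow s j hsj h
  · push Not at h
    exact hhigh j s hsj (by linarith)

section

variable {γ : V → ℝ} {κ : ℝ}

lemma Gam_erase (hγ : ∀ y, 1 ≤ γ y) (hκ : 0 < κ) (Y : Finset V) {y : V} (hy : y ∈ Y) :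
    γ y * Gam (fun z => γ z / κ) (Y.erase y) ≤ κ * Gam (fun z => γ z / κ) Y := by
  obtain ⟨S, hS, e⟩ := exists_Gam (fun z => γ z / κ) (Y.erase y)
  have hyS : y ∉ S := fun h => (mem_erase.mp (hS h)).1 rfl
  have hSY : insert y S ⊆ Y := by
    intro z hz
    rcases mem_insert.mp hz with rfl | hz
    · exact hy
    · exact (mem_erase.mp (hS hz)).2
  have h1 := le_Gam (fun z => γ z / κ) hSY
  rw [prod_insert hyS, card_insert_of_notMem hyS] at h1
  rw [e]
  have h2 : (0 : ℝ) ≤ ∏ z ∈ S, (γ z / κ) :=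
    prod_nonneg (fun z _ => div_nonneg (by linarith [hγ z]) hκ.le)
  have hγy := hγ y
  have h3 : (S.card ! : ℝ) ≤ ((S.card + 1) ! : ℝ) := by
    exact_mod_cast Nat.factorial_le (Nat.le_succ _)
  calc γ y * ((S.card ! : ℝ) * ∏ z ∈ S, (γ z / κ))
      = κ * ((S.card ! : ℝ) * (γ y / κ * ∏ z ∈ S, (γ z / κ))) := by field_simp
    _ ≤ κ * (((S.card + 1) ! : ℝ) * (γ y / κ * ∏ z ∈ S, (γ z / κ))) := by
        apply mul_le_mul_of_nonneg_left _ hκ.le
        apply mul_le_mul_of_nonneg_right h3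
        have : 0 ≤ γ y / κ := div_nonneg (by linarith) hκ.le
        positivity
    _ ≤ κ * Gam (fun z => γ z / κ) Y := mul_le_mul_of_nonneg_left h1 hκ.le

lemma Gam_erase' (hγ : ∀ y, 1 ≤ γ y) (hκ : 0 < κ) (Y : Finset V) {y : V} (hy : y ∈ Y)
    (hN : 8 * κ < Y.card) :
    (Y.card : ℝ) * (γ y * Gam (fun z => γ z / κ) (Y.erase y)) ≤
      κ * Gam (fun z => γ z / κ) Y := by
  obtain ⟨S, hS, e⟩ := exists_Gam (fun z => γ z / κ) (Y.erase y)
  have hyS : y ∉ S := fun h => (mem_erase.mp (hS h)).1 rfl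
  have hSY : insert y S ⊆ Y := by
    intro z hz
    rcases mem_insert.mp hz with rfl | hz
    · exact hy
    · exact (mem_erase.mp (hS hz)).2
  set R := Y \ insert y S with hR
  have hcard : S.card + R.card + 1 = Y.card := by
    have := card_sdiff_add_card_eq_card hSY
    rw [card_insert_of_notMem hyS, ← hR] at this
    omega
  have h1 := le_Gam (fun z => γ z / κ) (subset_refl Y)
  have hprod : ∏ z ∈ Y, (γ z / κ) = (∏ z ∈ R, (γ z / κ)) * (γ y / κ * ∏ z ∈ S, (γ z / κ)) := by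
    rw [hR, ← prod_sdiff hSY, prod_insert hyS]
  have hRprod : (1 / κ) ^ R.card ≤ ∏ z ∈ R, (γ z / κ) := by
    rw [← prod_const]
    apply prod_le_prod
    · intro z _; positivity
    · intro z _
      apply div_le_div_of_nonneg_right (hγ z) hκ.le
  have h2 : (0 : ℝ) ≤ ∏ z ∈ S, (γ z / κ) :=
    prod_nonneg (fun z _ => div_nonneg (by linarith [hγ z]) hκ.le)
  have hγy := hγ y
  have hγκ : 0 ≤ γ y / κ := div_nonneg (by linarith) hκ.le
  have hN' : 8 * κ < ((S.card + R.card : ℕ) : ℝ) + 1 := by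
    rw [← hcard] at hN
    push_cast at hN ⊢
    linarith
  have h3 := kpow_mul_fact hκ (S.card + R.card) hN' S.card R.card rfl
  rw [e]
  -- `N * s! ≤ N! / κ ^ j`
  have h4 : (Y.card : ℝ) * (S.card ! : ℝ) ≤ (Y.card ! : ℝ) * (1 / κ) ^ R.card := by
    rw [← hcard, Nat.factorial_succ]
    push_cast
    rw [div_pow, one_pow, mul_one_div, le_div_iff₀ (pow_pos hκ _)]
    have : (0 : ℝ) ≤ (S.card : ℝ) + R.card + 1 := by positivity
    nlinarith
  calc (Y.card : ℝ) * (γ y * ((S.card ! : ℝ) * ∏ z ∈ S, (γ z / κ)))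
      = κ * (((Y.card : ℝ) * (S.card ! : ℝ)) * (γ y / κ * ∏ z ∈ S, (γ z / κ))) := by
        field_simp
    _ ≤ κ * (((Y.card ! : ℝ) * (1 / κ) ^ R.card) * (γ y / κ * ∏ z ∈ S, (γ z / κ))) := by
        apply mul_le_mul_of_nonneg_left _ hκ.le
        apply mul_le_mul_of_nonneg_right h4
        positivity
    _ ≤ κ * (((Y.card ! : ℝ) * ∏ z ∈ R, (γ z / κ)) * (γ y / κ * ∏ z ∈ S, (γ z / κ))) := by
        apply mul_le_mul_of_nonneg_left _ hκ.le
        apply mul_le_mul_of_nonneg_right _ (by positivity)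
        apply mul_le_mul_of_nonneg_left hRprod (by positivity)
    _ = κ * ((Y.card ! : ℝ) * ∏ z ∈ Y, (γ z / κ)) := by rw [hprod]; ring
    _ ≤ κ * Gam (fun z => γ z / κ) Y := mul_le_mul_of_nonneg_left h1 hκ.le

lemma sum_gam (hγ : ∀ y, 1 ≤ γ y) (hκ : 0 < κ) (Y : Finset V) :
    ∑ y ∈ Y, γ y ≤ κ * Y.card + κ * Gam (fun z => γ z / κ) Y := by
  classical
  set Y2 := Y.filter (fun y => κ < γ y) with hY2
  rw [← sum_filter_add_sum_filter_not Y (fun y => κ < γ y), add_comm]
  apply add_le_add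
  · calc ∑ y ∈ Y.filter (fun y => ¬ κ < γ y), γ y ≤ ∑ y ∈ Y.filter (fun y => ¬ κ < γ y), κ := by
          apply sum_le_sum
          intro y hy
          exact not_lt.mp (mem_filter.mp hy).2
      _ = κ * (Y.filter (fun y => ¬ κ < γ y)).card := by rw [sum_const, nsmul_eq_mul, mul_comm]
      _ ≤ κ * Y.card := by
          apply mul_le_mul_of_nonneg_left _ hκ.le
          exact_mod_cast card_filter_le _ _
  · rw [← hY2]
    by_cases hm : Y2.card = 0
    · rw [card_eq_zero.mp hm, sum_empty]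
      have := one_le_Gam (fun z => γ z / κ) Y
      positivity
    · have key : ∀ y ∈ Y2, (Y2.card : ℝ) * γ y ≤ κ * Gam (fun z => γ z / κ) Y := by
        intro y hy
        have h1 := le_Gam (fun z => γ z / κ) (filter_subset (fun y => κ < γ y) Y)
        rw [← hY2, ← mul_prod_erase Y2 _ hy] at h1
        have h2 : (1 : ℝ) ≤ ∏ z ∈ Y2.erase y, (γ z / κ) := by
          calc (1 : ℝ) = ∏ z ∈ Y2.erase y, (1 : ℝ) := by simp
            _ ≤ _ := by
              apply prod_le_prod (fun _ _ => zero_le_one)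
              intro z hz
              have := (mem_filter.mp (mem_of_mem_erase hz)).2
              rw [le_div_iff₀ hκ]; linarith
        have h3 : (Y2.card : ℝ) ≤ (Y2.card ! : ℝ) := by exact_mod_cast Nat.self_le_factorial _
        have hγy := hγ y
        have hγκ : 0 ≤ γ y / κ := div_nonneg (by linarith) hκ.le
        calc (Y2.card : ℝ) * γ y = κ * ((Y2.card : ℝ) * (γ y / κ)) := by field_simp
          _ ≤ κ * ((Y2.card ! : ℝ) * (γ y / κ * ∏ z ∈ Y2.erase y, (γ z / κ))) := by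
              apply mul_le_mul_of_nonneg_left _ hκ.le
              apply mul_le_mul h3 _ hγκ (by positivity)
              nlinarith
          _ ≤ _ := mul_le_mul_of_nonneg_left h1 hκ.le
      have hm' : (0 : ℝ) < Y2.card := by exact_mod_cast Nat.pos_of_ne_zero hm
      have h4 : (Y2.card : ℝ) * ∑ y ∈ Y2, γ y ≤
          (Y2.card : ℝ) * (κ * Gam (fun z => γ z / κ) Y) := by
        rw [mul_sum]
        calc ∑ y ∈ Y2, (Y2.card : ℝ) * γ y ≤ ∑ y ∈ Y2, κ * Gam (fun z => γ z / κ) Y :=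
              sum_le_sum key
          _ = _ := by rw [sum_const, nsmul_eq_mul]
      exact le_of_mul_le_mul_left h4 hm'

/-- The potential. -/
noncomputable def Ph (γ : V → ℝ) (κ : ℝ) (Y : Finset V) : ℝ :=
  1 + Gam (fun z => γ z / κ) Y / (1 + κ)

lemma one_le_Ph (hκ : 0 < κ) (Y : Finset V) : 1 ≤ Ph γ κ Y := by
  unfold Ph
  have := one_le_Gam (fun z => γ z / κ) Y
  have : 0 ≤ Gam (fun z => γ z / κ) Y / (1 + κ) := by positivity
  linarith

/-- The local inequality for the potential. -/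
lemma local_ineq (hγ : ∀ y, 1 ≤ γ y) (hκ : 0 < κ) (Y : Finset V) :
    ∑ y ∈ Y, (1 + γ y / (1 + κ)) * Ph γ κ (Y.erase y) ≤ 17 * κ * Ph γ κ Y := by
  set G := Gam (fun z => γ z / κ) Y with hG
  have hG1 : 1 ≤ G := one_le_Gam _ Y
  have hΘ : 0 < 1 + κ := by linarith
  set N : ℝ := (Y.card : ℝ) with hNdef
  have hN0 : 0 ≤ N := Nat.cast_nonneg _
  set t : ℝ := G / (1 + κ) with ht
  have ht0 : 0 ≤ t := by positivity
  -- expand
  have hexp : ∑ y ∈ Y, (1 + γ y / (1 + κ)) * Ph γ κ (Y.erase y) =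
      N + (∑ y ∈ Y, γ y) / (1 + κ) +
      (∑ y ∈ Y, Gam (fun z => γ z / κ) (Y.erase y)) / (1 + κ) +
      (∑ y ∈ Y, γ y * Gam (fun z => γ z / κ) (Y.erase y)) / (1 + κ) ^ 2 := by
    unfold Ph
    rw [sum_div, sum_div, sum_div, hNdef]
    have : (Y.card : ℝ) = ∑ y ∈ Y, (1 : ℝ) := by simp
    rw [this, ← sum_add_distrib, ← sum_add_distrib, ← sum_add_distrib]
    apply sum_congr rfl
    intro y _
    field_simp
    ring
  rw [hexp]
  have hs1 : (∑ y ∈ Y, γ y) / (1 + κ) ≤ N + κ * t := by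
    have h1 := sum_gam hγ hκ Y
    rw [div_le_iff₀ hΘ]
    calc ∑ y ∈ Y, γ y ≤ κ * N + κ * G := h1
      _ ≤ (N + κ * t) * (1 + κ) := by
          have : κ * t * (1 + κ) = κ * G := by rw [ht]; field_simp
          nlinarith
  have hPh : Ph γ κ Y = 1 + t := rfl
  rw [hPh]
  have hκt : 0 ≤ κ * t := by positivity
  by_cases hcase : N ≤ 8 * κ
  · -- few elements
    have hs2 : (∑ y ∈ Y, Gam (fun z => γ z / κ) (Y.erase y)) / (1 + κ) ≤ N * t := by
      rw [ht, ← mul_div_assoc]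
      apply div_le_div_of_nonneg_right _ hΘ.le
      calc ∑ y ∈ Y, Gam (fun z => γ z / κ) (Y.erase y) ≤ ∑ y ∈ Y, G :=
            sum_le_sum (fun y _ => Gam_mono _ (erase_subset _ _))
        _ = N * G := by rw [sum_const, nsmul_eq_mul]
    have hs3 : (∑ y ∈ Y, γ y * Gam (fun z => γ z / κ) (Y.erase y)) / (1 + κ) ^ 2 ≤ N * t := by
      rw [div_le_iff₀ (by positivity)]
      calc ∑ y ∈ Y, γ y * Gam (fun z => γ z / κ) (Y.erase y) ≤ ∑ y ∈ Y, κ * G :=
            sum_le_sum (fun y hy => Gam_erase hγ hκ Y hy)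
        _ = N * (κ * G) := by rw [sum_const, nsmul_eq_mul]
        _ ≤ N * t * (1 + κ) ^ 2 := by
            have : N * t * (1 + κ) ^ 2 = N * ((1 + κ) * G) := by rw [ht]; field_simp
            rw [this]
            apply mul_le_mul_of_nonneg_left _ hN0
            nlinarith
    have h5 : N * t ≤ 8 * κ * t := mul_le_mul_of_nonneg_right hcase ht0
    nlinarith
  · push Not at hcase
    have hYpos : 0 < Y.card := by
      have : (0 : ℝ) < Y.card := by
        have : 0 < 8 * κ := by positivity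
        linarith
      exact_mod_cast this
    have hNpos : 0 < N := by rw [hNdef]; exact_mod_cast hYpos
    have hs3' : ∑ y ∈ Y, γ y * Gam (fun z => γ z / κ) (Y.erase y) ≤ κ * G := by
      have h1 : N * ∑ y ∈ Y, γ y * Gam (fun z => γ z / κ) (Y.erase y) ≤ N * (κ * G) := by
        rw [mul_sum]
        calc ∑ y ∈ Y, N * (γ y * Gam (fun z => γ z / κ) (Y.erase y)) ≤ ∑ y ∈ Y, κ * G :=
              sum_le_sum (fun y hy => Gam_erase' hγ hκ Y hy hcase)
          _ = N * (κ * G) := by rw [sum_const, nsmul_eq_mul]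
      exact le_of_mul_le_mul_left h1 hNpos
    have hs2 : (∑ y ∈ Y, Gam (fun z => γ z / κ) (Y.erase y)) / (1 + κ) ≤ κ * t := by
      rw [div_le_iff₀ hΘ]
      have : κ * t * (1 + κ) = κ * G := by rw [ht]; field_simp
      rw [this]
      refine le_trans (sum_le_sum (fun y _ => ?_)) hs3'
      have := one_le_Gam (fun z => γ z / κ) (Y.erase y)
      nlinarith [hγ y]
    have hs3 : (∑ y ∈ Y, γ y * Gam (fun z => γ z / κ) (Y.erase y)) / (1 + κ) ^ 2 ≤ κ * t := by
      rw [div_le_iff₀ (by positivity)]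
      refine le_trans hs3' ?_
      have : κ * t * (1 + κ) ^ 2 = κ * G * (1 + κ) := by rw [ht]; field_simp
      rw [this]
      have : 0 ≤ κ * G := by positivity
      nlinarith
    -- `N ≤ 2 κ t`
    have hN2 : N ≤ 2 * κ * t := by
      obtain ⟨m, hm⟩ : ∃ m, Y.card = m + 1 := ⟨Y.card - 1, by omega⟩
      have h1 := le_Gam (fun z => γ z / κ) (subset_refl Y)
      have hprod : (1 / κ) ^ Y.card ≤ ∏ z ∈ Y, (γ z / κ) := by
        rw [← prod_const]
        apply prod_le_prod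
        · intro z _; positivity
        · intro z _
          apply div_le_div_of_nonneg_right (hγ z) hκ.le
      have h2 : (Y.card ! : ℝ) * (1 / κ) ^ Y.card ≤ G :=
        le_trans (mul_le_mul_of_nonneg_left hprod (by positivity)) h1
      have hNm : N = (m : ℝ) + 1 := by rw [hNdef, hm]; push_cast; ring
      have h8 : 8 * κ < (m : ℝ) + 1 := by rw [← hNm]; exact hcase
      have h3 : κ ^ m ≤ (m ! : ℝ) := by
        have := kpow_mul_fact hκ m h8 0 m (by omega)
        simpa using this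
      have h4 : κ ^ (m + 1) ≤ (m ! : ℝ) := by
        refine le_trans ?_ (pow_le_fact m)
        apply pow_le_pow_left₀ hκ.le
        linarith
      rw [hm, Nat.factorial_succ, div_pow, one_pow, mul_one_div, div_le_iff₀ (pow_pos hκ _)] at h2
      push_cast at h2
      -- `(m+1) m! ≤ G κ^(m+1)`
      rw [hNm]
      have h5 : t * (1 + κ) = G := by rw [ht]; field_simp
      have h6 : ((m : ℝ) + 1) * (1 + κ) * (m ! : ℝ) ≤ 2 * κ * G * (m ! : ℝ) := by
        have h7 : ((m : ℝ) + 1) * (m ! : ℝ) * (1 + κ) ≤ G * κ ^ (m + 1) * (1 + κ) :=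
          mul_le_mul_of_nonneg_right h2 hΘ.le
        have h9 : G * κ ^ (m + 1) * (1 + κ) = κ * G * (κ ^ m + κ ^ (m + 1)) := by ring
        have h10 : κ * G * (κ ^ m + κ ^ (m + 1)) ≤ κ * G * ((m ! : ℝ) + (m ! : ℝ)) := by
          apply mul_le_mul_of_nonneg_left (add_le_add h3 h4)
          positivity
        nlinarith
      have hfpos : (0 : ℝ) < (m ! : ℝ) := by exact_mod_cast Nat.factorial_pos m
      have h11 : ((m : ℝ) + 1) * (1 + κ) ≤ 2 * κ * G := le_of_mul_le_mul_right h6 hfpos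
      have h12 : 2 * κ * G = 2 * κ * t * (1 + κ) := by rw [← h5]; ring
      rw [h12] at h11
      exact le_of_mul_le_mul_right h11 hΘ
    nlinarith

end

end Pool.Agent.TH644.KK
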