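import Pool.Agent.TH644.KK.Aut
import Pool.Agent.TH644.KK.Pot

/-!
# The optimal weights of rooted subtrees and their sum
-/

set_option autoImplicit false
set_option linter.unusedSectionVars false

open Finset
open scoped Nat

namespace Pool.Agent.TH644.KK

variable {V : Type*} [Fintype V] [DecidableEq V]

lemma Gam_congr {a b : V → ℝ} {Y : Finset V} (h : ∀ y ∈ Y, a y = b y) : Gam a Y = Gam b Y := by
  apply le_antisymm
  · obtain ⟨S, hS, e⟩ := exists_Gam a Y
    rw [e, prod_congr rfl (fun y hy => h y (hS hy))]
    exact le_Gam b hS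
  · obtain ⟨S, hS, e⟩ := exists_Gam b Y
    rw [e, prod_congr rfl (fun y hy => (h y (hS hy)).symm)]
    exact le_Gam a hS

lemma exists_gamma (par : V → Option V) (rk : V → ℕ) (hrk : ∀ x y, par y = some x → rk x < rk y)
    (κ : ℝ) : ∃ γ : V → ℝ, (∀ x, 1 ≤ γ x) ∧ ∀ x, γ x = Gam (fun z => γ z / κ) (ch par x) := by
  let F : (V → ℝ) → V → ℝ := fun g x => Gam (fun z => g z / κ) (ch par x)
  let G : ℕ → V → ℝ := fun i => F^[i] (fun _ => 1)
  have hG : ∀ i x, G (i + 1) x = Gam (fun z => G i z / κ) (ch par x) := by
    intro i x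
    simp only [G, Function.iterate_succ_apply']
    rfl
  obtain ⟨R, hR⟩ : ∃ R, ∀ x, rk x ≤ R := by
    obtain ⟨R, hR⟩ := (Set.finite_range rk).bddAbove
    exact ⟨R, fun x => hR ⟨x, rfl⟩⟩
  have key : ∀ i x, R < rk x + i → G (i + 1) x = G i x := by
    intro i
    induction i with
    | zero =>
      intro x hx
      have := hR x
      omega
    | succ i ih =>
      intro x hx
      rw [hG (i + 1) x, hG i x]
      apply Gam_congr
      intro y hy
      have := hrk _ _ (mem_ch.mp hy)
      rw [ih y (by omega)]
  refine ⟨G (R + 1), ?_, ?_⟩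
  · intro x
    rw [hG]
    exact one_le_Gam _ _
  · intro x
    rw [← key (R + 1) x (by omega), hG]

section

variable {p : V → Option V} {t : V → ℕ}

/-- product over the descendants -/
lemma prod_desc (ht : ∀ x y, p y = some x → t x < t y) {γ w : V → ℝ}
    (hγ : ∀ x, γ x = w x * ∏ y ∈ ch p x, γ y) :
    ∀ (m : ℕ) (S : Finset V) (o : Option V), (∀ x ∈ S, p x = o) → (desc p S).card = m →
      ∏ x ∈ S, γ x = ∏ z ∈ desc p S, w z := by
  intro m
  induction m using Nat.strong_induction_on with
  | _ m ih =>
    intro S o hS hm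
    rcases S.eq_empty_or_nonempty with rfl | ⟨x, hx⟩
    · have : desc p (∅ : Finset V) = ∅ := by
        ext z; simp [mem_desc]
      rw [this]; simp
    · obtain ⟨h1, h2, h3, h4⟩ := desc_decomp ht hS hx
      have hnot : x ∉ desc p (ch p x) ∪ desc p (S.erase x) := by
        rw [mem_union]; tauto
      have hcard : (desc p S).card =
          (desc p (ch p x)).card + (desc p (S.erase x)).card + 1 := by
        rw [h1, card_insert_of_notMem hnot, card_union_of_disjoint h4]
      rw [h1, prod_insert hnot, prod_union h4,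
        ← ih _ (by omega) (ch p x) (some x) (fun y hy => mem_ch.mp hy) rfl,
        ← ih _ (by omega) (S.erase x) o (fun y hy => hS y (mem_of_mem_erase hy)) rfl,
        ← mul_prod_erase S γ hx, hγ x]
      ring

lemma sum_desc (ht : ∀ x y, p y = some x → t x < t y) :
    ∀ (m : ℕ) (S : Finset V) (o : Option V), (∀ x ∈ S, p x = o) → (desc p S).card = m →
      ∑ z ∈ desc p S, (ch p z).card + S.card = (desc p S).card := by
  intro m
  induction m using Nat.strong_induction_on with
  | _ m ih =>
    intro S o hS hm
    rcases S.eq_empty_or_nonempty with rfl | ⟨x, hx⟩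
    · have : desc p (∅ : Finset V) = ∅ := by
        ext z; simp [mem_desc]
      rw [this]; simp
    · obtain ⟨h1, h2, h3, h4⟩ := desc_decomp ht hS hx
      have hnot : x ∉ desc p (ch p x) ∪ desc p (S.erase x) := by
        rw [mem_union]; tauto
      have hcard : (desc p S).card =
          (desc p (ch p x)).card + (desc p (S.erase x)).card + 1 := by
        rw [h1, card_insert_of_notMem hnot, card_union_of_disjoint h4]
      have e1 := ih _ (by omega) (ch p x) (some x) (fun y hy => mem_ch.mp hy) rfl
      have e2 := ih _ (by omega) (S.erase x) o (fun y hy => hS y (mem_of_mem_erase hy)) rfl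
      rw [hcard]
      conv_lhs => rw [h1, sum_insert hnot, sum_union h4]
      rw [card_erase_of_mem hx] at e2
      have : 0 < S.card := card_pos.mpr ⟨x, hx⟩
      omega

end

lemma pow_le_three_fact (k : ℕ) : ((k : ℝ) / 3) ^ k ≤ (k ! : ℝ) := by
  rcases Nat.eq_zero_or_pos k with rfl | hk
  · simp
  · have h := pow_le_fact k
    -- use the exponential series
    have h2 : (k : ℝ) ^ k / (k ! : ℝ) ≤ Real.exp k := by
      have := Real.pow_div_factorial_le_exp (x := (k : ℝ)) (Nat.cast_nonneg k) k
      exact this
    have h3 : Real.exp k ≤ 3 ^ k := by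
      have : Real.exp (k : ℝ) = (Real.exp 1) ^ k := by
        rw [← Real.exp_nat_mul]; simp
      rw [this]
      apply pow_le_pow_left₀ (Real.exp_pos 1).le
      have := Real.exp_one_lt_d9
      linarith
    have hf : (0 : ℝ) < (k ! : ℝ) := by exact_mod_cast Nat.factorial_pos k
    rw [div_le_iff₀ hf] at h2
    rw [div_pow, div_le_iff₀ (by positivity)]
    calc (k : ℝ) ^ k ≤ Real.exp k * (k ! : ℝ) := h2
      _ ≤ 3 ^ k * (k ! : ℝ) := mul_le_mul_of_nonneg_right h3 hf.le
      _ = _ := by ring

lemma sum_sq_two (N : ℕ) :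
    ∑ e ∈ range N, ((e : ℝ) ^ 2 + 1) / 2 ^ e = 8 - (2 * (N : ℝ) ^ 2 + 4 * N + 8) / 2 ^ N := by
  induction N with
  | zero => norm_num
  | succ N ih =>
    rw [sum_range_succ, ih, pow_succ]
    push_cast
    field_simp
    ring

/-- the hypothesis on the subforests -/
def HypF (par : V → Option V) (n : ℕ) (p : ℝ) : Prop :=
  ∀ (p' : V → Option V), (∀ z w, p' z = some w → par z = some w) →
    ∀ S : Finset V, (∀ x ∈ S, p' x = none) → ∀ W : Finset V, W = desc p' S →
      (Nat.card {σ : Equiv.Perm W // ∀ x y : W,
        (p' x = some (y : V) ∨ p' y = some (x : V)) ↔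
        (p' (σ x) = some (σ y : V) ∨ p' (σ y) = some (σ x : V))} : ℝ) ≤
      (n : ℝ) ^ W.card * p ^ (W.card - S.card)

theorem sum_gamma_le {par : V → Option V} {rk : V → ℕ}
    (hrk : ∀ x y, par y = some x → rk x < rk y) {n : ℕ} (hn : Fintype.card V ≤ n) {p : ℝ}
    (hp : 0 < p) (hn0 : 0 < n) (hyp : HypF par n p) {γ : V → ℝ}
    (hγ1 : ∀ x, 1 ≤ γ x) (hγ : ∀ x, γ x = Gam (fun z => γ z / (8 * (n * p))) (ch par x)) :
    ∑ x, γ x ≤ 192 * n := by
  classical
  set d : ℝ := n * p with hd
  have hn0' : (0 : ℝ) < n := by exact_mod_cast hn0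
  have hd0 : 0 < d := mul_pos hn0' hp
  set κ : ℝ := 8 * d with hκ
  have hκ0 : 0 < κ := by positivity
  -- the best sets of children
  have hB : ∀ x, ∃ B ⊆ ch par x, γ x = (B.card ! : ℝ) * ∏ y ∈ B, (γ y / κ) := by
    intro x
    obtain ⟨S, hS, e⟩ := exists_Gam (fun z => γ z / κ) (ch par x)
    exact ⟨S, hS, by rw [hγ x]; exact e⟩
  choose B hBch hBγ using hB
  -- the forest of the best children
  let pB : V → Option V := fun z => (par z).filter (fun w => z ∈ B w)
  have hpB : ∀ z w, pB z = some w ↔ par z = some w ∧ z ∈ B w := by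
    intro z w
    simp only [pB, Option.filter_eq_some_iff, decide_eq_true_eq]
  have hchB : ∀ w, ch pB w = B w := by
    intro w
    ext z
    rw [mem_ch, hpB]
    constructor
    · exact fun h => h.2
    · exact fun h => ⟨mem_ch.mp (hBch w h), h⟩
  have htB : ∀ x y, pB y = some x → rk x < rk y := fun x y h => hrk x y ((hpB y x).mp h).1
  let Q : V → Finset V := fun x => desc pB {x}
  let m : V → ℕ := fun x => ∑ z ∈ Q x, (B z).card
  let P : V → ℕ := fun x => ∏ z ∈ Q x, Nat.factorial (B z).card
  have hm : ∀ x, m x + 1 = (Q x).card := by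
    intro x
    have := sum_desc htB _ {x} (pB x) (by simp) rfl
    simp only [hchB, card_singleton] at this
    exact this
  have hγP : ∀ x, γ x = (P x : ℝ) / κ ^ (m x) := by
    intro x
    have h1 := prod_desc htB (γ := γ) (w := fun z => ((B z).card ! : ℝ) / κ ^ (B z).card) (by
      intro x
      rw [hchB, hBγ x, prod_div_distrib, prod_const]
      field_simp) _ {x} (pB x) (by simp) rfl
    rw [prod_singleton] at h1
    rw [h1, prod_div_distrib, prod_pow_eq_pow_sum]
    simp only [P, m, Q]
    push_cast
    rfl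
  have hP1 : ∀ x, 1 ≤ P x := fun x => Finset.one_le_prod' (fun z _ => Nat.factorial_pos _)
  have hPle : ∀ x, P x ≤ 2 ^ (m x ^ 2) := by
    intro x
    have h1 : ∀ z ∈ Q x, (B z).card ! ≤ (m x) ^ (B z).card := by
      intro z hz
      refine le_trans (Nat.factorial_le_pow _) ?_
      apply Nat.pow_le_pow_left
      exact single_le_sum (f := fun z => (B z).card) (fun _ _ => Nat.zero_le _) hz
    calc P x ≤ ∏ z ∈ Q x, (m x) ^ (B z).card := prod_le_prod' h1
      _ = (m x) ^ (m x) := by rw [prod_pow_eq_pow_sum]
      _ ≤ (2 ^ (m x)) ^ (m x) := Nat.pow_le_pow_left (Nat.lt_two_pow_self).le _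
      _ = 2 ^ (m x ^ 2) := by rw [← pow_mul, sq]
  -- one class
  have hclass : ∀ e i : ℕ,
      ∑ x ∈ univ.filter (fun x => m x = e ∧ Nat.log 2 (P x) = i), γ x ≤ 24 * n / 2 ^ e := by
    intro e i
    set X := univ.filter (fun x => m x = e ∧ Nat.log 2 (P x) = i) with hX
    have hXm : ∀ x ∈ X, m x = e := fun x hx => (mem_filter.mp hx).2.1
    have hXP : ∀ x ∈ X, Nat.log 2 (P x) = i := fun x hx => (mem_filter.mp hx).2.2
    -- antichain
    have hanti : ∀ x ∈ X, ∀ y ∈ X, Anc pB x y → x = y := by
      intro x hx y hy hxy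
      by_contra hne
      have hsub : Q y ⊆ (Q x).erase x := by
        intro z hz
        obtain ⟨y', hy', hyz⟩ := mem_desc.mp hz
        rw [mem_singleton] at hy'
        subst hy'
        rw [mem_erase]
        constructor
        · rintro rfl
          have h1 := Anc.rk htB hxy
          have h2 := Anc.rk htB hyz
          rcases h1 with h1 | h1
          · exact hne h1
          · rcases h2 with h2 | h2
            · exact hne h2.symm
            · omega
        · exact mem_desc.mpr ⟨x, mem_singleton_self x, Relation.ReflTransGen.trans hxy hyz⟩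
      have h1 := card_le_card hsub
      have hxQ : x ∈ Q x := subset_desc {x} (mem_singleton_self x)
      rw [card_erase_of_mem hxQ] at h1
      have h2 := hm x
      have h3 := hm y
      rw [hXm x hx] at h2
      rw [hXm y hy] at h3
      omega
    -- the subforest
    let p' : V → Option V := fun z => if z ∈ X then none else pB z
    have hp'1 : ∀ z w, p' z = some w ↔ z ∉ X ∧ pB z = some w := by
      intro z w
      by_cases hz : z ∈ X
      · simp [p', hz]
      · simp [p', hz]
    have hp'par : ∀ z w, p' z = some w → par z = some w := fun z w h =>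
      ((hpB z w).mp ((hp'1 z w).mp h).2).1
    have hp'rk : ∀ x y, p' y = some x → rk x < rk y := fun x y h => hrk x y (hp'par y x h)
    have hp'X : ∀ x ∈ X, p' x = none := fun x hx => by simp [p', hx]
    set W := desc p' X with hW
    -- comparison of the two relations
    have hAnc : ∀ x ∈ X, ∀ z, Anc p' x z ↔ Anc pB x z := by
      intro x hx z
      constructor
      · intro h
        exact Relation.ReflTransGen.mono (fun a b hab => ((hp'1 b a).mp hab).2) _ _ h
      · intro h
        induction h with
        | refl => exact Relation.ReflTransGen.refl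
        | tail h1 h2 ih =>
          rename_i b c
          refine Relation.ReflTransGen.tail ih ((hp'1 c b).mpr ⟨?_, h2⟩)
          intro hc
          have h3 : Anc pB x c := Relation.ReflTransGen.tail h1 h2
          have h4 := hanti x hx c hc h3
          subst h4
          have h5 := htB _ _ h2
          rcases Anc.rk htB h1 with h6 | h6
          · subst h6; exact lt_irrefl _ h5
          · omega
    have hWU : W = X.biUnion Q := by
      ext z
      rw [hW, mem_desc, mem_biUnion]
      constructor
      · rintro ⟨x, hx, hxz⟩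
        exact ⟨x, hx, mem_desc.mpr ⟨x, mem_singleton_self x, (hAnc x hx z).mp hxz⟩⟩
      · rintro ⟨x, hx, hxz⟩
        obtain ⟨y, hy, hyz⟩ := mem_desc.mp hxz
        rw [mem_singleton] at hy
        subst hy
        exact ⟨y, hx, (hAnc y hx z).mpr hyz⟩
    have hdisj : (X : Set V).PairwiseDisjoint Q := by
      intro x hx y hy hxy
      simp only [Function.onFun]
      rw [disjoint_left]
      intro z hz hz'
      obtain ⟨x', hx', h1⟩ := mem_desc.mp hz
      obtain ⟨y', hy', h2⟩ := mem_desc.mp hz'
      rw [mem_singleton] at hx' hy'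
      subst hx' hy'
      rcases Anc.total h1 h2 with h | h
      · exact hxy (hanti _ hx _ hy h)
      · exact hxy (hanti _ hy _ hx h).symm
    have hchp' : ∀ z ∈ W, ch p' z = B z := by
      intro z hz
      ext y
      rw [mem_ch, hp'1, ← hchB z, mem_ch]
      constructor
      · exact fun h => h.2
      · intro h
        refine ⟨?_, h⟩
        intro hy
        rw [hWU, mem_biUnion] at hz
        obtain ⟨x, hx, hxz⟩ := hz
        obtain ⟨x', hx', h1⟩ := mem_desc.mp hxz
        rw [mem_singleton] at hx'
        subst hx'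
        have h3 := hanti _ hx _ hy (Relation.ReflTransGen.tail h1 h)
        subst h3
        have h5 := htB _ _ h
        rcases Anc.rk htB h1 with h6 | h6
        · subst h6; exact lt_irrefl _ h5
        · omega
    have hWcard : W.card = X.card * (e + 1) := by
      rw [hWU, card_biUnion hdisj]
      rw [sum_congr rfl (fun x hx => by rw [← hm x, hXm x hx])]
      rw [sum_const, smul_eq_mul]
    have haut := aut_lower hp'rk X hp'X W hW
    have hhyp := hyp p' hp'par X hp'X W hW
    have hprodW : ∏ z ∈ W, (ch p' z).card ! = ∏ x ∈ X, P x := by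
      rw [prod_congr rfl (fun z hz => by rw [hchp' z hz]), hWU, prod_biUnion hdisj]
    rw [hprodW] at haut
    -- real inequality
    have hreal : (X.card ! : ℝ) * 2 ^ (i * X.card) ≤ ((4 * n) * (4 * d) ^ e) ^ X.card := by
      have h1 : (2 : ℝ) ^ (i * X.card) ≤ ∏ x ∈ X, (P x : ℝ) := by
        calc (2 : ℝ) ^ (i * X.card) = ∏ x ∈ X, (2 : ℝ) ^ i := by rw [prod_const, pow_mul]
          _ ≤ _ := by
            apply prod_le_prod (fun _ _ => by positivity)
            intro x hx
            have := Nat.pow_log_le_self 2 (Nat.one_le_iff_ne_zero.mp (hP1 x))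
            rw [hXP x hx] at this
            exact_mod_cast this
      have h2 : (X.card ! : ℝ) * ∏ x ∈ X, (P x : ℝ) ≤ 4 ^ W.card *
          (Nat.card {σ : Equiv.Perm W // ∀ x y : W,
            (p' x = some (y : V) ∨ p' y = some (x : V)) ↔
            (p' (σ x) = some (σ y : V) ∨ p' (σ y) = some (σ x : V))} : ℝ) := by
        exact_mod_cast haut
      have hsub : W.card - X.card = e * X.card := by
        rw [hWcard]
        have : X.card * (e + 1) = e * X.card + X.card := by ring
        omega
      calc (X.card ! : ℝ) * 2 ^ (i * X.card) ≤ (X.card ! : ℝ) * ∏ x ∈ X, (P x : ℝ) :=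
            mul_le_mul_of_nonneg_left h1 (by positivity)
        _ ≤ _ := h2
        _ ≤ 4 ^ W.card * ((n : ℝ) ^ W.card * p ^ (W.card - X.card)) :=
            mul_le_mul_of_nonneg_left hhyp (by positivity)
        _ = ((4 * n) * (4 * d) ^ e) ^ X.card := by
            rw [hsub, hWcard, hd]
            rw [mul_comm X.card (e + 1), pow_mul, pow_mul, pow_mul, ← mul_pow, ← mul_pow]
            congr 1
            rw [mul_pow, mul_pow]
            ring
    rcases X.eq_empty_or_nonempty with hXe | hXne
    · rw [hXe, sum_empty]; positivity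
    have hXpos : 0 < X.card := card_pos.mpr hXne
    -- root
    have hroot : (X.card : ℝ) * 2 ^ i ≤ 12 * n * (4 * d) ^ e := by
      have h1 : (((X.card : ℝ) / 3) * 2 ^ i) ^ X.card ≤ ((4 * n) * (4 * d) ^ e) ^ X.card := by
        refine le_trans ?_ hreal
        rw [mul_pow, ← pow_mul]
        exact mul_le_mul_of_nonneg_right (pow_le_three_fact _) (by positivity)
      have h2 : ((X.card : ℝ) / 3) * 2 ^ i ≤ (4 * n) * (4 * d) ^ e :=
        le_of_pow_le_pow_left₀ hXpos.ne' (by positivity) h1
      linarith
    have hterm : ∀ x ∈ X, γ x ≤ 2 ^ (i + 1) / κ ^ e := by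
      intro x hx
      rw [hγP x, hXm x hx]
      apply div_le_div_of_nonneg_right _ (by positivity)
      have := Nat.lt_pow_succ_log_self (b := 2) (by norm_num) (P x)
      rw [hXP x hx] at this
      exact_mod_cast this.le
    calc ∑ x ∈ X, γ x ≤ ∑ x ∈ X, 2 ^ (i + 1) / κ ^ e := sum_le_sum hterm
      _ = X.card * (2 ^ (i + 1) / κ ^ e) := by rw [sum_const, nsmul_eq_mul]
      _ = (X.card * 2 ^ i) * (2 / κ ^ e) := by rw [pow_succ]; ring
      _ ≤ (12 * n * (4 * d) ^ e) * (2 / κ ^ e) :=
          mul_le_mul_of_nonneg_right hroot (by positivity)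
      _ = 24 * n / 2 ^ e := by
          rw [hκ]
          have : (8 * d) ^ e = (4 * d) ^ e * 2 ^ e := by rw [← mul_pow]; ring
          rw [this]
          field_simp
          ring
  -- sum over the classes
  have hmle : ∀ x, m x ∈ range (Fintype.card V + 1) := by
    intro x
    rw [mem_range]
    have := hm x
    have h2 : (Q x).card ≤ Fintype.card V := card_le_univ _
    omega
  have hlog : ∀ x, Nat.log 2 (P x) ∈ range (m x ^ 2 + 1) := by
    intro x
    rw [mem_range, Nat.lt_succ_iff]
    calc Nat.log 2 (P x) ≤ Nat.log 2 (2 ^ (m x ^ 2)) := Nat.log_mono_right (hPle x)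
      _ = m x ^ 2 := Nat.log_pow (by norm_num) _
  calc ∑ x, γ x = ∑ e ∈ range (Fintype.card V + 1), ∑ x ∈ univ.filter (fun x => m x = e), γ x := by
        rw [sum_fiberwise_of_maps_to (fun x _ => hmle x)]
    _ = ∑ e ∈ range (Fintype.card V + 1), ∑ i ∈ range (e ^ 2 + 1),
          ∑ x ∈ univ.filter (fun x => m x = e ∧ Nat.log 2 (P x) = i), γ x := by
        apply sum_congr rfl
        intro e _
        rw [← sum_fiberwise_of_maps_to (s := univ.filter (fun x => m x = e))
          (t := range (e ^ 2 + 1)) (g := fun x => Nat.log 2 (P x))]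
        · apply sum_congr rfl
          intro i _
          rw [filter_filter]
        · intro x hx
          have := hlog x
          rw [(mem_filter.mp hx).2] at this
          exact this
    _ ≤ ∑ e ∈ range (Fintype.card V + 1), ∑ i ∈ range (e ^ 2 + 1), (24 * (n : ℝ) / 2 ^ e) :=
        sum_le_sum (fun e _ => sum_le_sum (fun i _ => hclass e i))
    _ = 24 * n * ∑ e ∈ range (Fintype.card V + 1), ((e : ℝ) ^ 2 + 1) / 2 ^ e := by
        rw [mul_sum]
        apply sum_congr rfl
        intro e _
        rw [sum_const, card_range, nsmul_eq_mul]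
        push_cast
        ring
    _ ≤ 24 * n * 8 := by
        apply mul_le_mul_of_nonneg_left _ (by positivity)
        rw [sum_sq_two]
        have : (0 : ℝ) ≤ (2 * ((Fintype.card V + 1 : ℕ) : ℝ) ^ 2 + 4 * (Fintype.card V + 1 : ℕ) + 8) /
            2 ^ (Fintype.card V + 1) := by positivity
        linarith
    _ = 192 * n := by ring

end Pool.Agent.TH644.KK
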